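import Pool.Agent.H53.ST.Stmts

set_option autoImplicit false

namespace Pool.Agent.ST53.TaskClosed

open Pool.Agent.H53.ST Matrix Topology

theorem main (h : TaskLin) : Pool.Agent.H53.ST.TaskClosed := by
  classical
  intro n ι _ _ A c d hcard
  -- the finite set of transversals
  let P : Finset (ι → V n × V n) :=
    (Fintype.piFinset (fun j => A j ×ˢ A j)).filter
      (fun p => LinearIndependent ℝ (fun j : (Finset.univ : Finset ι) => (p j).1 - (p j).2))
  have hset : {t : ℝ | ∃ x, Ind (acts A (fun j a => c j a + t * d j a) x) Finset.univ} =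
      ⋃ p ∈ P, {t : ℝ | ∃ x, ∀ j, (p j).1 ∈ act (A j) (fun a => c j a + t * d j a) x ∧
        (p j).2 ∈ act (A j) (fun a => c j a + t * d j a) x} := by
    ext t
    simp only [Set.mem_setOf_eq, Set.mem_iUnion, exists_prop]
    constructor
    · rintro ⟨x, a, b, hab, hli⟩
      refine ⟨fun j => (a j, b j), ?_, x, ?_⟩
      · refine Finset.mem_filter.2 ⟨?_, hli⟩
        rw [Fintype.mem_piFinset]
        intro j
        have := hab j (Finset.mem_univ j)
        unfold acts act at this
        rw [Finset.mem_filter, Finset.mem_filter] at this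
        exact Finset.mem_product.2 ⟨this.1.1, this.2.1⟩
      · intro j
        exact hab j (Finset.mem_univ j)
    · rintro ⟨p, hp, x, hx⟩
      refine ⟨x, fun j => (p j).1, fun j => (p j).2, ?_, (Finset.mem_filter.1 hp).2⟩
      intro j _
      exact hx j
  rw [hset]
  apply Set.Finite.isClosed_biUnion P.finite_toSet
  intro p hp
  have hp' : p ∈ P := hp
  have hli := (Finset.mem_filter.1 hp').2
  have hmem := (Finset.mem_filter.1 hp').1
  rw [Fintype.mem_piFinset] at hmem
  have hli' : LinearIndependent ℝ (fun j : ι => (p j).1 - (p j).2) := by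
    have := hli.comp (fun j : ι => (⟨j, Finset.mem_univ j⟩ : (Finset.univ : Finset ι)))
      (fun i j hij => by simpa using hij)
    exact this
  obtain ⟨L, hL⟩ := h n ι (fun j => (p j).1 - (p j).2) hcard hli'
  have hLc : Continuous L := LinearMap.continuous_of_finiteDimensional L
  let r : ℝ → ι → ℝ := fun t j => (c j (p j).2 + t * d j (p j).2) - (c j (p j).1 + t * d j (p j).1)
  have hr : Continuous r := by
    apply continuous_pi
    intro j
    fun_prop
  have hLr : Continuous (fun t => L (r t)) := hLc.comp hr
  have hval : ∀ (j : ι) (a : V n),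
      Continuous (fun t => val (fun a => c j a + t * d j a) a (L (r t))) := by
    intro j a
    have h1 : ∀ i : Fin n, Continuous (fun t => (L (r t)) i) := fun i =>
      (continuous_apply i).comp hLr
    simp only [val, dotProduct]
    refine Continuous.add (by fun_prop) ?_
    exact continuous_finset_sum _ (fun i _ => continuous_const.mul (h1 i))
  have heq : {t : ℝ | ∃ x, ∀ j, (p j).1 ∈ act (A j) (fun a => c j a + t * d j a) x ∧
        (p j).2 ∈ act (A j) (fun a => c j a + t * d j a) x} =
      ⋂ j, ⋂ b ∈ A j, ({t : ℝ | val (fun a => c j a + t * d j a) b (L (r t)) ≤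
          val (fun a => c j a + t * d j a) (p j).1 (L (r t))} ∩
        {t : ℝ | val (fun a => c j a + t * d j a) b (L (r t)) ≤
          val (fun a => c j a + t * d j a) (p j).2 (L (r t))}) := by
    ext t
    simp only [Set.mem_setOf_eq, Set.mem_iInter, Set.mem_inter_iff]
    constructor
    · rintro ⟨x, hx⟩
      have hxL : x = L (r t) := by
        rw [← hL]
        intro j
        have h1 := hx j
        unfold act at h1
        rw [Finset.mem_filter, Finset.mem_filter] at h1
        have h2 := h1.1.2 _ h1.2.1
        have h3 := h1.2.2 _ h1.1.1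
        simp only [val] at h2 h3
        rw [sub_dotProduct]
        simp only [r]
        linarith
      intro j b hb
      have h1 := hx j
      unfold act at h1
      rw [Finset.mem_filter, Finset.mem_filter] at h1
      rw [← hxL]
      exact ⟨h1.1.2 b hb, h1.2.2 b hb⟩
    · intro hx
      refine ⟨L (r t), fun j => ?_⟩
      unfold act
      rw [Finset.mem_filter, Finset.mem_filter]
      have := Finset.mem_product.1 (hmem j)
      exact ⟨⟨this.1, fun b hb => (hx j b hb).1⟩, ⟨this.2, fun b hb => (hx j b hb).2⟩⟩
  rw [heq]
  refine isClosed_iInter fun j => isClosed_iInter fun b => isClosed_iInter fun _ => ?_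
  exact (isClosed_le (hval j b) (hval j _)).inter (isClosed_le (hval j b) (hval j _))

end Pool.Agent.ST53.TaskClosed
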