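import Pool.Agent.H53.ST.Stmts

/-! Lemma of the blueprint for MP_835643_co. -/

set_option autoImplicit false

namespace Pool.Agent.ST53.TaskConn

open Pool.Agent.H53.ST Matrix

theorem seg_conn {n : ℕ} {F : Set (V n)} (q y : V n)
    (h : ∀ s : ℝ, 0 ≤ s → s ≤ 1 → q + s • (y - q) ∈ F) : y ∈ connectedComponentIn F q := by
  have hsub : segment ℝ q y ⊆ F := by
    rw [segment_eq_image']
    rintro _ ⟨s, hs, rfl⟩
    exact h s hs.1 hs.2
  exact (convex_segment q y).isPreconnected.subset_connectedComponentIn (left_mem_segment ℝ q y)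
    hsub (right_mem_segment ℝ q y)

theorem main : Pool.Agent.H53.ST.TaskConn := by
  intro hSeg hPerp hFix n ι _ A c q y J hq hJ hadj
  obtain ⟨hcase, hInd⟩ := hadj
  rcases hcase with hyq | hqy
  · -- `y` more generic
    have hfix : ∀ i, i ∉ J → act (A i) (c i) y = act (A i) (c i) q := by
      intro i hi
      exact hPerp n (A i) (c i) q y (hyq i) (hFix n ι A c q y J i hyq hInd hi (hJ i hi))
    refine ⟨seg_conn q y fun s hs0 hs1 => ?_, fun i hi _ => hfix i hi⟩
    rcases hs0.eq_or_lt with rfl | hs0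
    · simpa using hq
    · intro i
      rw [hSeg n (A i) (c i) q y (hyq i) s hs0 hs1]
      by_cases hi : i ∈ J
      · obtain ⟨a, b, hab, hli⟩ := hInd
        refine ⟨a i, (hab i hi).1, b i, (hab i hi).2, fun h => ?_⟩
        exact hli.ne_zero (⟨i, hi⟩ : J) (sub_eq_zero.2 h)
      · rw [hfix i hi]
        exact hq i
  · have hyOn : y ∈ OnAll A c := by
      intro i
      obtain ⟨a, ha, b, hb, hne⟩ := hq i
      exact ⟨a, hqy i ha, b, hqy i hb, hne⟩
    have hall : ∀ s : ℝ, 0 ≤ s → s ≤ 1 → y + s • (q - y) ∈ OnAll A c := by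
      intro s hs0 hs1
      rcases hs0.eq_or_lt with rfl | hs0
      · simpa using hyOn
      · intro i
        rw [hSeg n (A i) (c i) y q (hqy i) s hs0 hs1]
        exact hq i
    refine ⟨seg_conn q y fun s hs0 hs1 => ?_, fun i _ h => subset_antisymm (h i) (hqy i)⟩
    have h1 := hall (1 - s) (by linarith) (by linarith)
    have h2 : y + (1 - s) • (q - y) = q + s • (y - q) := by
      ext k
      simp only [Pi.add_apply, Pi.smul_apply, Pi.sub_apply, smul_eq_mul]
      ring
    rwa [h2] at h1

end Pool.Agent.ST53.TaskConn
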