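import Pool.Agent.H53.ST.Stmts

set_option autoImplicit false

namespace Pool.Agent.ST53.TaskE

open Pool.Agent.H53.ST Matrix Topology
open Finset hiding val

theorem exists_third {n : ℕ} {A : Finset (V n)} (h : 3 ≤ A.card) (a b : V n) :
    ∃ e ∈ A, e ≠ a ∧ e ≠ b := by
  classical
  have h1 : ({a, b} : Finset (V n)).card < A.card := lt_of_le_of_lt card_le_two (by omega)
  obtain ⟨e, he, hne⟩ := exists_mem_notMem_of_card_lt_card h1
  refine ⟨e, he, ?_, ?_⟩ <;> rintro rfl <;> simp at hne

theorem ind_erase {n : ℕ} {ι : Type} [Fintype ι] [DecidableEq ι] {A : ι → Finset (V n)}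
    {a b : ι → V n} (hab : ∀ j ∈ (univ : Finset ι), a j ∈ A j ∧ b j ∈ A j)
    (hli : LinearIndependent ℝ (fun j : (univ : Finset ι) => a j - b j)) (j₀ : ι) (e : V n)
    (ha : e ≠ a j₀) (hb : e ≠ b j₀) :
    Ind (Function.update A j₀ ((A j₀).erase e)) univ := by
  refine ⟨a, b, fun j hj => ?_, hli⟩
  by_cases h : j = j₀
  · subst h
    rw [Function.update_self]
    exact ⟨mem_erase.2 ⟨ha.symm, (hab j hj).1⟩, mem_erase.2 ⟨hb.symm, (hab j hj).2⟩⟩
  · rw [Function.update_of_ne h]; exact hab j hj

theorem eq_of_orth {n : ℕ} {ι : Type} [Fintype ι] (hn : Fintype.card ι = n) {u : ι → V n}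
    (hli : LinearIndependent ℝ (fun j : (univ : Finset ι) => u j)) {x : V n}
    (h : ∀ j, u j ⬝ᵥ x = 0) : x = 0 := by
  have hc : Fintype.card (univ : Finset ι) = Module.finrank ℝ (V n) := by
    simp [hn]
  have hs : Submodule.span ℝ (Set.range (fun j : (univ : Finset ι) => u j)) = ⊤ :=
    hli.span_eq_top_of_card_eq_finrank' hc
  have hx : x ∈ Submodule.span ℝ (Set.range (fun j : (univ : Finset ι) => u j)) := by
    rw [hs]; trivial
  have key : ∀ y ∈ Submodule.span ℝ (Set.range (fun j : (univ : Finset ι) => u j)),
      y ⬝ᵥ x = 0 := by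
    intro y hy
    induction hy using Submodule.span_induction with
    | mem y hy => obtain ⟨j, rfl⟩ := hy; exact h j
    | zero => simp
    | add y z _ _ hy hz => rw [add_dotProduct, hy, hz, add_zero]
    | smul c y _ hy => rw [smul_dotProduct, hy, smul_zero]
  exact dotProduct_self_eq_zero.1 (key x hx)

theorem val_eq {n : ℕ} {A : Finset (V n)} {c : V n → ℝ} {x : V n} (h : act A c x = A) {a b : V n}
    (ha : a ∈ A) (hb : b ∈ A) : val c a x = val c b x := by
  have h1 : a ∈ act A c x := by rw [h]; exact ha
  have h2 : b ∈ act A c x := by rw [h]; exact hb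
  unfold act at h1 h2
  exact le_antisymm ((mem_filter.1 h2).2 a ha) ((mem_filter.1 h1).2 b hb)

theorem main (hL : TaskLine) (hR : TaskRaise) (hC : TaskClosed) : TaskE := by
  classical
  intro n ι _ _ A c hn hA
  have H : ∀ N : ℕ, ∀ (A : ι → Finset (V n)), ∑ j, (A j).card = N → Ind A univ →
      ∀ c : ι → V n → ℝ, ∃ x, Ind (acts A c x) univ := by
    intro N
    induction N using Nat.strong_induction_on with
    | _ N ih =>
      intro A hAN hA c
      obtain ⟨a, b, hab, hli⟩ := id hA
      have hne : ∀ j, a j ≠ b j := fun j h =>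
        hli.ne_zero ⟨j, mem_univ j⟩ (by simp [h])
      have hsub : ∀ A' : ι → Finset (V n), (∀ j, A' j ⊆ A j) → A' ≠ A → Ind A' univ →
          ∀ c' : ι → V n → ℝ, ∃ x', Ind (acts A' c' x') univ := by
        intro A' h1 h2 h3
        refine ih _ ?_ A' rfl h3
        rw [← hAN]
        obtain ⟨j, hj⟩ := Function.ne_iff.1 h2
        exact sum_lt_sum (fun i _ => card_le_card (h1 i))
          ⟨j, mem_univ j, card_lt_card ((h1 j).ssubset_of_ne hj)⟩
      by_cases h2 : ∃ j₀ j₁, j₀ ≠ j₁ ∧ 3 ≤ (A j₀).card ∧ 3 ≤ (A j₁).card
      · obtain ⟨j₀, j₁, h01, h0, h1⟩ := h2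
        obtain ⟨e, heA, hea, heb⟩ := exists_third h0 (a j₀) (b j₀)
        obtain ⟨g, hgA, hga, hgb⟩ := exists_third h1 (a j₁) (b j₁)
        have hIe := ind_erase hab hli j₀ e hea heb
        by_cases hall : ∀ (t : ℝ) (x : V n),
            acts A (fun j a => c j a + t * (if j = j₀ ∧ a = e then 1 else 0)) x ≠ A
        · exact hR n ι A c j₀ e hn heA hsub hIe hall
        · push Not at hall
          obtain ⟨t₀, x₀, hx₀⟩ := hall
          let d : ι → V n → ℝ := fun j a => if j = j₁ ∧ a = g then 1 else 0
          have hδ : ∀ δ : ℝ, δ ≠ 0 → ∃ x, Ind (acts A (fun j a => c j a + δ * d j a) x) univ := by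
            intro δ hδ
            refine hR n ι A _ j₀ e hn heA hsub hIe fun t x hx => hδ ?_
            have e1 : ∀ j, (a j - b j) ⬝ᵥ x₀ = c j (b j) - c j (a j) := by
              intro j
              have h := val_eq (congrFun hx₀ j) (hab j (mem_univ j)).1 (hab j (mem_univ j)).2
              unfold val at h
              have h3 : ¬ (j = j₀ ∧ a j = e) := fun hh => hea (by rw [← hh.1]; exact hh.2.symm)
              have h4 : ¬ (j = j₀ ∧ b j = e) := fun hh => heb (by rw [← hh.1]; exact hh.2.symm)
              simp only [if_neg h3, if_neg h4, mul_zero, add_zero] at h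
              rw [sub_dotProduct]; linarith
            have e2 : ∀ j, (a j - b j) ⬝ᵥ x = c j (b j) - c j (a j) := by
              intro j
              have h := val_eq (congrFun hx j) (hab j (mem_univ j)).1 (hab j (mem_univ j)).2
              unfold val at h
              have h3 : ¬ (j = j₀ ∧ a j = e) := fun hh => hea (by rw [← hh.1]; exact hh.2.symm)
              have h4 : ¬ (j = j₀ ∧ b j = e) := fun hh => heb (by rw [← hh.1]; exact hh.2.symm)
              have h5 : ¬ (j = j₁ ∧ a j = g) := fun hh => hga (by rw [← hh.1]; exact hh.2.symm)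
              have h6 : ¬ (j = j₁ ∧ b j = g) := fun hh => hgb (by rw [← hh.1]; exact hh.2.symm)
              simp only [d, if_neg h3, if_neg h4, if_neg h5, if_neg h6, mul_zero, add_zero] at h
              rw [sub_dotProduct]; linarith
            have e3 : x - x₀ = 0 := by
              refine eq_of_orth (u := fun j => a j - b j) hn hli fun j => ?_
              rw [dotProduct_sub, e1 j, e2 j, sub_self]
            have e4 : x = x₀ := sub_eq_zero.1 e3
            subst e4
            have h5 := val_eq (congrFun hx₀ j₁) hgA (hab j₁ (mem_univ j₁)).1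
            have h6 := val_eq (congrFun hx j₁) hgA (hab j₁ (mem_univ j₁)).1
            unfold val at h5 h6
            have h7 : ¬ (j₁ = j₀ ∧ g = e) := fun h => h01 h.1.symm
            have h8 : ¬ (j₁ = j₀ ∧ a j₁ = e) := fun h => h01 h.1.symm
            have h9 : ¬ (j₁ = j₁ ∧ a j₁ = g) := fun h => hga h.2.symm
            simp only [if_neg h7, if_neg h8, mul_zero, add_zero] at h5
            simp only [d, if_neg h7, if_neg h8, if_neg h9, mul_zero, add_zero, and_self, if_true,
              mul_one] at h6
            linarith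
          have hcl := hC n ι A c d hn
          have hmem : (0 : ℝ) ∈ closure {t : ℝ | ∃ x, Ind (acts A (fun j a => c j a + t * d j a) x)
              univ} := by
            have hd : Dense ({0}ᶜ : Set ℝ) := dense_compl_singleton 0
            exact closure_mono (fun t ht => hδ t ht) (hd 0)
          rw [hcl.closure_eq] at hmem
          obtain ⟨x, hx⟩ := hmem
          refine ⟨x, ?_⟩
          have hc : (fun j a => c j a + 0 * d j a) = c := by
            funext j a; simp
          rwa [hc] at hx
      · push Not at h2
        rcases isEmpty_or_nonempty ι with hι | hι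
        · exact ⟨0, a, b, fun j => (hι.false j).elim, hli⟩
        · have hge : ∀ j, 2 ≤ (A j).card := by
            intro j
            have h3 : ({a j, b j} : Finset (V n)) ⊆ A j := by
              intro y hy
              rcases mem_insert.1 hy with h | h
              · rw [h]; exact (hab j (mem_univ j)).1
              · rw [mem_singleton.1 h]; exact (hab j (mem_univ j)).2
            have h4 := card_le_card h3
            rwa [card_pair (hne j)] at h4
          obtain ⟨j₀, hj₀⟩ : ∃ j₀, ∀ j, j ≠ j₀ → (A j).card = 2 := by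
            by_cases h3 : ∃ j₀, 3 ≤ (A j₀).card
            · obtain ⟨j₀, h3⟩ := h3
              refine ⟨j₀, fun j hj => ?_⟩
              have := h2 j₀ j hj.symm h3
              have := hge j
              omega
            · push Not at h3
              obtain ⟨j₀⟩ := hι
              refine ⟨j₀, fun j _ => ?_⟩
              have := h3 j
              have := hge j
              omega
          exact hL n ι A c j₀ hn hA hj₀
  exact H _ A rfl hA c

end Pool.Agent.ST53.TaskE
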