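import Pool.Agent.H53.ST.Stmts

set_option autoImplicit false

namespace Pool.Agent.ST53.TaskFix

open Pool.Agent.H53.ST Matrix

private theorem act_perp {n : ℕ} {A : Finset (V n)} {c : V n → ℝ} {q y a b : V n}
    (hay : a ∈ act A c y) (hby : b ∈ act A c y) (haq : a ∈ act A c q) (hbq : b ∈ act A c q) :
    (a - b) ⬝ᵥ (y - q) = 0 := by
  simp only [act, Finset.mem_filter] at hay hby haq hbq
  have h1 : val c a y = val c b y := le_antisymm (hby.2 a hay.1) (hay.2 b hby.1)
  have h2 : val c a q = val c b q := le_antisymm (hbq.2 a haq.1) (haq.2 b hbq.1)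
  simp only [val] at h1 h2
  rw [sub_dotProduct, dotProduct_sub, dotProduct_sub]
  linarith

theorem main : Pool.Agent.H53.ST.TaskFix := by
  intro n ι _ A c q y J i hsub hy hi hnot a ha b hb
  obtain ⟨a', b', hab, hli⟩ := hy
  have hspan : a - b ∈ Submodule.span ℝ (Set.range fun j : J => a' j - b' j) := by
    by_contra hns
    apply hnot
    set f : ι → V n := fun j => Function.update a' i a j - Function.update b' i b j with hf
    have hfi : f i = a - b := by simp [hf]
    have hfj : ∀ j ∈ J, f j = a' j - b' j := by
      intro j hj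
      have hne : j ≠ i := by rintro rfl; exact hi hj
      simp [hf, Function.update_of_ne hne]
    refine ⟨Function.update a' i a, Function.update b' i b, ?_, ?_⟩
    · intro j hj0
      rcases Finset.mem_insert.1 hj0 with rfl | hj1
      · simp only [Function.update_self]
        exact ⟨ha, hb⟩
      · have hne : j ≠ i := fun e => hi (e ▸ hj1)
        rw [Function.update_of_ne hne, Function.update_of_ne hne]
        exact ⟨hsub j (hab j hj1).1, hsub j (hab j hj1).2⟩
    · have h1 : LinearIndepOn ℝ f (insert i (J : Set ι)) := by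
        rw [linearIndepOn_insert (by simpa using hi)]
        refine ⟨?_, ?_⟩
        · have h2 : LinearIndepOn ℝ (fun j => a' j - b' j) (J : Set ι) := hli
          exact h2.congr (fun j hj => (hfj j hj).symm)
        · rw [hfi]
          intro hc
          apply hns
          refine Submodule.span_mono ?_ hc
          rintro v ⟨j, hj, rfl⟩
          exact ⟨⟨j, hj⟩, (hfj j hj).symm⟩
      rw [← Finset.coe_insert] at h1
      exact h1
  refine Submodule.span_induction (p := fun v _ => v ⬝ᵥ (y - q) = 0) ?_ ?_ ?_ ?_ hspan
  · rintro v ⟨j, rfl⟩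
    have h1 := hab j.1 j.2
    exact act_perp h1.1 h1.2 (hsub _ h1.1) (hsub _ h1.2)
  · simp
  · intro u v _ _ hu hv
    rw [add_dotProduct, hu, hv, add_zero]
  · intro r v _ hv
    rw [smul_dotProduct, hv, smul_zero]

end Pool.Agent.ST53.TaskFix
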