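import Pool.Agent.H53.ST.Stmts

set_option autoImplicit false

namespace Pool.Agent.ST53.TaskGen

open Matrix Pool.Agent.H53.ST

theorem main : Pool.Agent.H53.ST.TaskGen := by
  classical
  intro n ι _ _ A c J P hP hlim
  by_contra hInd
  -- the choices
  let C : Finset ((J → V n) × (J → V n)) :=
    ((Fintype.piFinset fun j : J => A j.1) ×ˢ (Fintype.piFinset fun j : J => A j.1)).filter
      (fun x => ∀ j, x.1 j ≠ x.2 j)
  have hC : ∀ x, x ∈ C ↔ ((∀ j : J, x.1 j ∈ A j.1) ∧ (∀ j : J, x.2 j ∈ A j.1)) ∧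
      ∀ j, x.1 j ≠ x.2 j := by
    intro x
    simp only [C, Finset.mem_filter, Finset.mem_product, Fintype.mem_piFinset]
  have hdep : ∀ x ∈ C, ∃ g : J → ℝ, ∑ j, g j • (x.1 j - x.2 j) = 0 ∧ ∃ j, g j ≠ 0 := by
    intro x hx
    rw [← Fintype.not_linearIndependent_iff]
    intro hli
    apply hInd
    refine ⟨fun i => if h : i ∈ J then x.1 ⟨i, h⟩ else 0,
      fun i => if h : i ∈ J then x.2 ⟨i, h⟩ else 0, ?_, ?_⟩
    · intro j hj
      simp only [dif_pos hj]
      exact ⟨((hC x).1 hx).1.1 ⟨j, hj⟩, ((hC x).1 hx).1.2 ⟨j, hj⟩⟩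
    · have h1 : (fun j : J => (if h : j.1 ∈ J then x.1 ⟨j.1, h⟩ else (0 : V n)) -
          (if h : j.1 ∈ J then x.2 ⟨j.1, h⟩ else (0 : V n))) = fun j => x.1 j - x.2 j := by
        funext j
        rw [dif_pos j.2, dif_pos j.2]
      rw [h1]
      exact hli
  choose! g hg1 hg2 using hdep
  let ℓ : ((J → V n) × (J → V n)) → MvPolynomial (ι × Fin n) ℝ := fun x =>
    ∑ j : J, ∑ i, MvPolynomial.C (g x j * (x.1 j i - x.2 j i)) * MvPolynomial.X (j.1, i)
  have hev : ∀ x (w : ι × Fin n → ℝ), MvPolynomial.eval w (ℓ x) =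
      ∑ j : J, ∑ i, g x j * (x.1 j i - x.2 j i) * w (j.1, i) := by
    intro x w
    simp only [ℓ, map_sum, map_mul, MvPolynomial.eval_C, MvPolynomial.eval_X]
  have hℓ : ∀ x ∈ C, ℓ x ≠ 0 := by
    intro x hx h0
    obtain ⟨j0, hj0⟩ := hg2 x hx
    have h1 := hev x (fun q => if h : q.1 ∈ J then g x ⟨q.1, h⟩ * (x.1 ⟨q.1, h⟩ q.2 -
      x.2 ⟨q.1, h⟩ q.2) else 0)
    rw [h0, map_zero] at h1
    have h2 : ∀ j : J, ∑ i, g x j * (x.1 j i - x.2 j i) * (if h : j.1 ∈ J then
        g x ⟨j.1, h⟩ * (x.1 ⟨j.1, h⟩ i - x.2 ⟨j.1, h⟩ i) else 0) =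
        ∑ i, (g x j * (x.1 j i - x.2 j i)) ^ 2 := by
      intro j
      refine Finset.sum_congr rfl fun i _ => ?_
      rw [dif_pos j.2]
      ring
    simp only [h2] at h1
    have h3 := (Finset.sum_eq_zero_iff_of_nonneg (fun j _ =>
      Finset.sum_nonneg fun i _ => sq_nonneg _)).1 h1.symm j0 (Finset.mem_univ _)
    have h4 := (Finset.sum_eq_zero_iff_of_nonneg (fun i _ => sq_nonneg _)).1 h3
    apply ((hC x).1 hx).2 j0
    funext i
    have h5 := h4 i (Finset.mem_univ _)
    have h6 : g x j0 * (x.1 j0 i - x.2 j0 i) = 0 := pow_eq_zero_iff (two_ne_zero) |>.1 h5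
    rcases mul_eq_zero.1 h6 with h7 | h7
    · exact absurd h7 hj0
    · linarith
  obtain ⟨w, hw⟩ : ∃ w, MvPolynomial.eval w (P * ∏ x ∈ C, ℓ x) ≠ 0 := by
    by_contra hcon
    push Not at hcon
    have h1 : P * ∏ x ∈ C, ℓ x ≠ 0 := mul_ne_zero hP (Finset.prod_ne_zero_iff.2 hℓ)
    apply h1
    apply MvPolynomial.funext
    intro w
    rw [hcon w, map_zero]
  rw [map_mul, map_prod] at hw
  have hwP := left_ne_zero_of_mul hw
  have hwℓ := Finset.prod_ne_zero_iff.1 (right_ne_zero_of_mul hw)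
  obtain ⟨p, hp⟩ := hlim (fun j i => w (j, i)) hwP
  obtain ⟨ε₀, hε₀, hε⟩ := hp 1 one_pos
  -- all small `ε` are in a finite set
  have hsub : Set.Ioo 0 ε₀ ⊆ ((C.image fun x => (∑ j : J, g x j * (c j.1 (x.1 j) - c j.1 (x.2 j))) /
      MvPolynomial.eval w (ℓ x) : Finset ℝ) : Set ℝ) := by
    rintro ε ⟨h1, h2⟩
    obtain ⟨y, -, hy⟩ := hε ε h1 h2
    choose! a ha b hb hab using hy
    rw [Finset.mem_coe, Finset.mem_image]
    refine ⟨(fun j => a j.1, fun j => b j.1), ?_, ?_⟩
    · rw [hC]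
      exact ⟨⟨fun j => (Finset.mem_filter.1 (ha j.1 j.2)).1,
        fun j => (Finset.mem_filter.1 (hb j.1 j.2)).1⟩, fun j => hab j.1 j.2⟩
    · have hx : ((fun j : J => a j.1, fun j : J => b j.1) : (J → V n) × (J → V n)) ∈ C := by
        rw [hC]
        exact ⟨⟨fun j => (Finset.mem_filter.1 (ha j.1 j.2)).1,
          fun j => (Finset.mem_filter.1 (hb j.1 j.2)).1⟩, fun j => hab j.1 j.2⟩
      rw [div_eq_iff (hwℓ _ hx), hev]
      have h3 : ∀ j : J, c j.1 (a j.1) - c j.1 (b j.1) =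
          ε * (∑ i, (a j.1 i - b j.1 i) * w (j.1, i)) - ∑ i, (a j.1 i - b j.1 i) * y i := by
        intro j
        have h4 := (Finset.mem_filter.1 (ha j.1 j.2)).2 _ (Finset.mem_filter.1 (hb j.1 j.2)).1
        have h5 := (Finset.mem_filter.1 (hb j.1 j.2)).2 _ (Finset.mem_filter.1 (ha j.1 j.2)).1
        have h6 := le_antisymm h4 h5
        unfold val at h6
        simp only [dotProduct, Pi.sub_apply, Pi.smul_apply, smul_eq_mul] at h6
        have h7 : ∀ a : V n, ∑ i, a i * (y i - ε * w (j.1, i)) =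
            ∑ i, a i * y i - ε * ∑ i, a i * w (j.1, i) := by
          intro a
          rw [Finset.mul_sum, ← Finset.sum_sub_distrib]
          exact Finset.sum_congr rfl fun i _ => by ring
        rw [h7, h7] at h6
        simp only [sub_mul, Finset.sum_sub_distrib]
        linarith
      have h8 := hg1 _ hx
      have h9 : ∑ j : J, g (fun j => a j.1, fun j => b j.1) j *
          ∑ i, (a j.1 i - b j.1 i) * y i = 0 := by
        have h10 := congrArg (fun z : V n => ∑ i, z i * y i) h8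
        simp only [Finset.sum_apply, Pi.smul_apply, Pi.sub_apply, smul_eq_mul, Pi.zero_apply,
          zero_mul, Finset.sum_const_zero] at h10
        rw [← h10]
        simp only [Finset.sum_mul, Finset.mul_sum]
        rw [Finset.sum_comm]
        refine Finset.sum_congr rfl fun i _ => Finset.sum_congr rfl fun j _ => ?_
        ring
      have h11 : ∑ j : J, g (fun j => a j.1, fun j => b j.1) j *
          (c j.1 (a j.1) - c j.1 (b j.1)) =
          ε * ∑ j : J, ∑ i, g (fun j => a j.1, fun j => b j.1) j *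
            (a j.1 i - b j.1 i) * w (j.1, i) := by
        have h12 : ∀ j : J, g (fun j => a j.1, fun j => b j.1) j *
            (c j.1 (a j.1) - c j.1 (b j.1)) =
            ε * (∑ i, g (fun j => a j.1, fun j => b j.1) j *
            (a j.1 i - b j.1 i) * w (j.1, i)) - g (fun j => a j.1, fun j => b j.1) j *
            ∑ i, (a j.1 i - b j.1 i) * y i := by
          intro j
          rw [h3 j]
          have h13 : ∑ i, g (fun j => a j.1, fun j => b j.1) j *
              (a j.1 i - b j.1 i) * w (j.1, i) = g (fun j => a j.1, fun j => b j.1) j *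
              ∑ i, (a j.1 i - b j.1 i) * w (j.1, i) := by
            rw [Finset.mul_sum]
            exact Finset.sum_congr rfl fun i _ => by ring
          rw [h13]
          ring
        rw [Finset.sum_congr rfl fun j _ => h12 j, Finset.sum_sub_distrib, h9, sub_zero,
          ← Finset.mul_sum]
      exact h11
  exact (Set.Ioo_infinite hε₀) ((Finset.finite_toSet _).subset hsub)

end Pool.Agent.ST53.TaskGen
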