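import Pool.Agent.H53.ST.Stmts

/-!
Linear programming: a linear function which is bounded above on a nonempty polyhedron attains its
maximum (blueprint of helper53 for MP_835643_co).
-/

set_option autoImplicit false

namespace Pool.Agent.ST53.TaskLP

open Matrix Pool.Agent.H53.ST

/-- a vector outside a span is separated from it by a direction -/
lemma separate {n : ℕ} (S : Set (Fin n → ℝ)) (h : Fin n → ℝ) (hh : h ∉ Submodule.span ℝ S) :
    ∃ d : Fin n → ℝ, (∀ s ∈ S, s ⬝ᵥ d = 0) ∧ 0 < h ⬝ᵥ d := by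
  obtain ⟨φ, hφ, hmap⟩ := Submodule.exists_dual_map_eq_bot_of_notMem hh inferInstance
  have hdot : ∀ v : Fin n → ℝ, v ⬝ᵥ (fun i => φ (Pi.single i 1)) = φ v := by
    intro v
    conv_rhs => rw [← Finset.univ_sum_single v]
    rw [map_sum]
    unfold dotProduct
    refine Finset.sum_congr rfl fun i _ => ?_
    have : (Pi.single i (v i) : Fin n → ℝ) = v i • (Pi.single i (1 : ℝ)) := by
      ext j
      by_cases hj : j = i
      · subst hj; simp
      · simp [Pi.single_eq_of_ne hj]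
    rw [this, map_smul, smul_eq_mul]
  have hzero : ∀ s ∈ S, φ s = 0 := by
    intro s hs
    have : φ s ∈ Submodule.map φ (Submodule.span ℝ S) :=
      Submodule.mem_map_of_mem (Submodule.subset_span hs)
    rw [hmap] at this
    exact (Submodule.mem_bot ℝ).1 this
  rcases lt_or_gt_of_ne hφ with hneg | hpos
  · refine ⟨-(fun i => φ (Pi.single i 1)), fun s hs => ?_, ?_⟩
    · rw [dotProduct_neg, hdot, hzero s hs, neg_zero]
    · rw [dotProduct_neg, hdot]; linarith
  · refine ⟨fun i => φ (Pi.single i 1), fun s hs => ?_, ?_⟩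
    · rw [hdot, hzero s hs]
    · rw [hdot]; exact hpos

lemma step {n : ℕ} {κ : Type} [Finite κ] (g : κ → Fin n → ℝ) (r : κ → ℝ) (h : Fin n → ℝ) (M : ℝ)
    (hM : ∀ x, (∀ i, g i ⬝ᵥ x ≤ r i) → h ⬝ᵥ x ≤ M) :
    ∀ (k : ℕ) (x : Fin n → ℝ), (∀ i, g i ⬝ᵥ x ≤ r i) → {i | g i ⬝ᵥ x ≠ r i}.ncard ≤ k →
      ∃ y, (∀ i, g i ⬝ᵥ y ≤ r i) ∧ h ⬝ᵥ x ≤ h ⬝ᵥ y ∧
        h ∈ Submodule.span ℝ (g '' {i | g i ⬝ᵥ y = r i}) := by
  intro k
  induction k with
  | zero =>
    intro x hx hk
    by_cases hin : h ∈ Submodule.span ℝ (g '' {i | g i ⬝ᵥ x = r i})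
    · exact ⟨x, hx, le_rfl, hin⟩
    exfalso
    obtain ⟨d, hd0, hd⟩ := separate _ h hin
    have hall : ∀ i, g i ⬝ᵥ x = r i := by
      intro i
      by_contra hne
      have hmem : i ∈ {i | g i ⬝ᵥ x ≠ r i} := hne
      have h1 : 0 < {i | g i ⬝ᵥ x ≠ r i}.ncard := (Set.ncard_pos (Set.toFinite _)).2 ⟨i, hmem⟩
      omega
    have hd1 : ∀ i, g i ⬝ᵥ d = 0 := fun i => hd0 _ ⟨i, hall i, rfl⟩
    have h2 := hM (x + ((M - h ⬝ᵥ x + 1) / (h ⬝ᵥ d)) • d) (by
      intro i
      rw [dotProduct_add, dotProduct_smul, hd1 i, smul_zero, add_zero]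
      exact hx i)
    rw [dotProduct_add, dotProduct_smul, smul_eq_mul, div_mul_cancel₀ _ hd.ne'] at h2
    linarith
  | succ k ih =>
    intro x hx hk
    by_cases hin : h ∈ Submodule.span ℝ (g '' {i | g i ⬝ᵥ x = r i})
    · exact ⟨x, hx, le_rfl, hin⟩
    obtain ⟨d, hd0, hd⟩ := separate _ h hin
    have hd1 : ∀ i, g i ⬝ᵥ x = r i → g i ⬝ᵥ d = 0 := fun i hi => hd0 _ ⟨i, hi, rfl⟩
    have hxM := hM x hx
    have hne : {i | 0 < g i ⬝ᵥ d}.Nonempty := by
      by_contra hcon
      rw [Set.not_nonempty_iff_eq_empty] at hcon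
      have hle : ∀ i, g i ⬝ᵥ d ≤ 0 := by
        intro i
        by_contra hi
        push Not at hi
        have : i ∈ {i | 0 < g i ⬝ᵥ d} := hi
        rw [hcon] at this
        exact this
      have ht : 0 ≤ (M - h ⬝ᵥ x + 1) / (h ⬝ᵥ d) := div_nonneg (by linarith) hd.le
      have h2 := hM (x + ((M - h ⬝ᵥ x + 1) / (h ⬝ᵥ d)) • d) (by
        intro i
        rw [dotProduct_add, dotProduct_smul, smul_eq_mul]
        have := mul_nonneg ht (neg_nonneg.2 (hle i))
        have := hx i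
        nlinarith)
      rw [dotProduct_add, dotProduct_smul, smul_eq_mul, div_mul_cancel₀ _ hd.ne'] at h2
      linarith
    obtain ⟨i0, hi0, hmin⟩ := Set.exists_min_image {i | 0 < g i ⬝ᵥ d}
      (fun i => (r i - g i ⬝ᵥ x) / (g i ⬝ᵥ d)) (Set.toFinite _) hne
    have hi0' : 0 < g i0 ⬝ᵥ d := hi0
    obtain ⟨t, ht⟩ : ∃ t, t = (r i0 - g i0 ⬝ᵥ x) / (g i0 ⬝ᵥ d) := ⟨_, rfl⟩
    have ht0 : 0 ≤ t := by
      rw [ht]
      exact div_nonneg (by linarith [hx i0]) hi0'.le
    have hval : ∀ v : Fin n → ℝ, v ⬝ᵥ (x + t • d) = v ⬝ᵥ x + t * (v ⬝ᵥ d) := by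
      intro v
      rw [dotProduct_add, dotProduct_smul, smul_eq_mul]
    have hy : ∀ i, g i ⬝ᵥ (x + t • d) ≤ r i := by
      intro i
      rw [hval]
      by_cases hi : 0 < g i ⬝ᵥ d
      · have h1 := hmin i hi
        simp only [← ht] at h1
        rw [le_div_iff₀ hi] at h1
        linarith
      · have h1 : g i ⬝ᵥ d ≤ 0 := not_lt.1 hi
        have h2 := mul_nonneg ht0 (neg_nonneg.2 h1)
        have h3 := hx i
        nlinarith
    have htight : g i0 ⬝ᵥ (x + t • d) = r i0 := by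
      rw [hval, ht, div_mul_cancel₀ _ hi0'.ne']
      ring
    have hsub : {i | g i ⬝ᵥ (x + t • d) ≠ r i} ⊂ {i | g i ⬝ᵥ x ≠ r i} := by
      refine ⟨fun i hi hi' => hi ?_, fun hcon => ?_⟩
      · change g i ⬝ᵥ (x + t • d) = r i
        rw [hval, hd1 i hi', mul_zero, add_zero]
        exact hi'
      · have h1 : i0 ∈ {i | g i ⬝ᵥ x ≠ r i} := by
          intro hcon2
          have := hd1 i0 hcon2
          linarith
        exact hcon h1 htight
    have hcard := Set.ncard_lt_ncard hsub (Set.toFinite _)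
    obtain ⟨y, hy1, hy2, hy3⟩ := ih (x + t • d) hy (by omega)
    refine ⟨y, hy1, le_trans ?_ hy2, hy3⟩
    rw [hval]
    have := mul_nonneg ht0 hd.le
    linarith

theorem main : Pool.Agent.H53.ST.TaskLP := by
  intro n κ _ g r h x₀ M hx₀ hM
  classical
  have hstep := step g r h M hM
  -- the values at the points where `h` belongs to the span of the tight constraints
  let Val : Set ℝ := {v | ∃ y, (∀ i, g i ⬝ᵥ y ≤ r i) ∧ h ⬝ᵥ y = v ∧
    h ∈ Submodule.span ℝ (g '' {i | g i ⬝ᵥ y = r i})}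
  have hfin : Val.Finite := by
    have hinj : Function.Injective fun v : Val => {i | g i ⬝ᵥ (Classical.choose v.2) = r i} := by
      intro v w hvw
      have hv := Classical.choose_spec v.2
      have hw := Classical.choose_spec w.2
      have hvw' : {i | g i ⬝ᵥ (Classical.choose v.2) = r i} =
        {i | g i ⬝ᵥ (Classical.choose w.2) = r i} := hvw
      apply Subtype.ext
      rw [← hv.2.1, ← hw.2.1]
      -- the difference is orthogonal to the tight constraints
      have horth : ∀ u ∈ Submodule.span ℝ (g '' {i | g i ⬝ᵥ (Classical.choose v.2) = r i}),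
          u ⬝ᵥ (Classical.choose v.2) = u ⬝ᵥ (Classical.choose w.2) := by
        intro u hu
        induction hu using Submodule.span_induction with
        | mem u hu =>
          obtain ⟨i, hi, rfl⟩ := hu
          have hi2 : i ∈ {i | g i ⬝ᵥ (Classical.choose w.2) = r i} := by rw [← hvw']; exact hi
          have e1 : g i ⬝ᵥ (Classical.choose v.2) = r i := hi
          have e2 : g i ⬝ᵥ (Classical.choose w.2) = r i := hi2
          rw [e1, e2]
        | zero => simp
        | add a b _ _ ha hb => rw [add_dotProduct, add_dotProduct, ha, hb]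
        | smul c a _ ha => rw [smul_dotProduct, smul_dotProduct, ha]
      exact horth h hv.2.2
    have : Finite Val := Finite.of_injective _ hinj
    exact Set.toFinite _
  obtain ⟨y0, hy0, _, hy0'⟩ := hstep _ x₀ hx₀ le_rfl
  obtain ⟨v, hv, hmax⟩ := Set.exists_max_image Val id hfin ⟨_, y0, hy0, rfl, hy0'⟩
  obtain ⟨x, hx, hxv, _⟩ := hv
  refine ⟨x, hx, fun y hy => ?_⟩
  obtain ⟨y1, hy1, hy2, hy3⟩ := hstep _ y hy le_rfl
  have := hmax _ ⟨y1, hy1, rfl, hy3⟩
  rw [hxv]
  exact hy2.trans this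

end Pool.Agent.ST53.TaskLP
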