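import Mathlib
import Pool.Agent.H53.ST.Stmts

set_option autoImplicit false

namespace Pool.Agent.ST53.TaskLin

open Pool.Agent.H53.ST Matrix

theorem main : Pool.Agent.H53.ST.TaskLin := by
  intro n ι _ u hcard hu
  classical
  let f : V n →ₗ[ℝ] (ι → ℝ) :=
    { toFun := fun x j => u j ⬝ᵥ x
      map_add' := by
        intro x y
        funext j
        simp [dotProduct_add]
      map_smul' := by
        intro c x
        funext j
        simp [dotProduct_smul] }
  have hspan : Submodule.span ℝ (Set.range u) = ⊤ := by
    apply hu.span_eq_top_of_card_eq_finrank'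
    simp [hcard]
  have hinj : Function.Injective f := by
    rw [← LinearMap.ker_eq_bot, LinearMap.ker_eq_bot']
    intro x hx
    have h1 : ∀ j, u j ⬝ᵥ x = 0 := fun j => congrFun hx j
    have h2 : ∀ v : V n, v ⬝ᵥ x = 0 := by
      intro v
      have hv : v ∈ Submodule.span ℝ (Set.range u) := by rw [hspan]; trivial
      induction hv using Submodule.span_induction with
      | mem v hv =>
        obtain ⟨j, rfl⟩ := hv
        exact h1 j
      | zero => simp
      | add a b _ _ ha hb => rw [add_dotProduct, ha, hb, add_zero]
      | smul c a _ ha => rw [smul_dotProduct, ha, smul_zero]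
    exact dotProduct_self_eq_zero.mp (h2 x)
  have hfr : Module.finrank ℝ (V n) = Module.finrank ℝ (ι → ℝ) := by
    simp [hcard]
  let e : V n ≃ₗ[ℝ] (ι → ℝ) := LinearEquiv.ofInjectiveOfFinrankEq f hinj hfr
  refine ⟨e.symm.toLinearMap, fun r x => ?_⟩
  have he : ∀ x, e x = f x := fun x => rfl
  constructor
  · intro h
    have : e x = r := by
      rw [he]
      funext j
      exact h j
    rw [← this]
    simp
  · intro h j
    have h3 : e x = r := by
      rw [h]
      simp
    rw [he] at h3
    exact congrFun h3 j

end Pool.Agent.ST53.TaskLin
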