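import Pool.Agent.H53.ST.Stmts

/-!
Task Line of the blueprint for MP_835643_co: existence of a solution if all sets but one have two elements.
-/

set_option autoImplicit false

open Matrix Topology

namespace Pool.Agent.ST53.TaskLine

open Pool.Agent.H53.ST

/-- the maximum of finitely many affine functions, not all of the same slope, has a break point -/
private lemma break_point {T : Type} (S : Finset T) (α β : T → ℝ) (x y : T) (hx : x ∈ S) (hy : y ∈ S)
    (hxy : β x ≠ β y) : ∃ s : ℝ, ∃ p ∈ S, ∃ q ∈ S, β p ≠ β q ∧
      (∀ e ∈ S, α e + s * β e ≤ α p + s * β p) ∧ (∀ e ∈ S, α e + s * β e ≤ α q + s * β q) := by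
  classical
  obtain ⟨p₀, hp₀, hmin⟩ := Finset.exists_min_image S β ⟨x, hx⟩
  obtain ⟨p, hp, hmax⟩ := Finset.exists_max_image (S.filter fun e => β e = β p₀) α
    ⟨p₀, Finset.mem_filter.2 ⟨hp₀, rfl⟩⟩
  rw [Finset.mem_filter] at hp
  have hpmin : ∀ e ∈ S, β p ≤ β e := fun e he => hp.2 ▸ hmin e he
  have hne : (S.filter fun e => β p < β e).Nonempty := by
    by_contra hcon
    rw [Finset.not_nonempty_iff_eq_empty, Finset.filter_eq_empty_iff] at hcon
    have h1 := hcon hx
    have h2 := hcon hy
    have h3 := hpmin x hx
    have h4 := hpmin y hy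
    exact hxy (le_antisymm (by linarith) (by linarith))
  obtain ⟨q, hq, hqm⟩ := Finset.exists_min_image _ (fun e => (α p - α e) / (β e - β p)) hne
  rw [Finset.mem_filter] at hq
  obtain ⟨s, hs⟩ : ∃ s, s = (α p - α q) / (β q - β p) := ⟨_, rfl⟩
  have hq0 : β q - β p ≠ 0 := by linarith [hq.2]
  have hse : s * (β q - β p) = α p - α q := by rw [hs, div_mul_cancel₀ _ hq0]
  have hall : ∀ e ∈ S, α e + s * β e ≤ α p + s * β p := by
    intro e he
    rcases eq_or_lt_of_le (hpmin e he) with h | h
    · have := hmax e (Finset.mem_filter.2 ⟨he, by rw [← h, hp.2]⟩)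
      rw [← h]
      linarith
    · have h1 := hqm e (Finset.mem_filter.2 ⟨he, h⟩)
      simp only [← hs] at h1
      rw [le_div_iff₀ (by linarith)] at h1
      nlinarith
  refine ⟨s, p, hp.1, q, hq.1, hq.2.ne, hall, fun e he => (hall e he).trans (le_of_eq ?_)⟩
  linarith

theorem main : Pool.Agent.H53.ST.TaskLine := by
  intro n ι _ _ A c j₀ hcard hInd htwo
  obtain ⟨a, b, hab, hli⟩ := hInd
  have hu : LinearIndependent ℝ (fun j : ι => a j - b j) :=
    hli.comp (fun j : ι => (⟨j, Finset.mem_univ j⟩ : (Finset.univ : Finset ι)))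
      (fun i j h => congrArg Subtype.val h)
  haveI : Nonempty ι := ⟨j₀⟩
  -- every system of equations has a solution
  have hsolve : ∀ r : ι → ℝ, ∃ x : V n, ∀ j, (a j - b j) ⬝ᵥ x = r j := by
    intro r
    have hc : Fintype.card ι = Module.finrank ℝ (V n) := by
      rw [Module.finrank_fin_fun]; exact hcard
    let B := basisOfLinearIndependentOfCardEqFinrank hu hc
    let φ : V n →ₗ[ℝ] ℝ := B.constr ℝ r
    refine ⟨fun i => φ (fun j => if i = j then 1 else 0), fun j => ?_⟩
    have h1 : φ (a j - b j) = r j := by
      have h2 : B j = a j - b j := by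
        show basisOfLinearIndependentOfCardEqFinrank hu hc j = _
        rw [coe_basisOfLinearIndependentOfCardEqFinrank]
      rw [← h2]
      exact B.constr_basis ℝ r j
    rw [← h1, LinearMap.pi_apply_eq_sum_univ φ (a j - b j)]
    rfl
  obtain ⟨x₀, hx₀⟩ := hsolve fun j => c j (b j) - c j (a j)
  obtain ⟨w, hw⟩ := hsolve fun j => if j = j₀ then 1 else 0
  obtain ⟨s, p, hp, q, hq, hpq, hpa, hqa⟩ := break_point (A j₀) (fun e => c j₀ e + e ⬝ᵥ x₀)
    (fun e => e ⬝ᵥ w) (a j₀) (b j₀) (hab j₀ (Finset.mem_univ _)).1 (hab j₀ (Finset.mem_univ _)).2 (by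
      have h1 := hw j₀
      rw [if_pos rfl, sub_dotProduct] at h1
      intro h2
      linarith)
  have hval : ∀ (j : ι) (e : V n), val (c j) e (x₀ + s • w) = (c j e + e ⬝ᵥ x₀) + s * (e ⬝ᵥ w) := by
    intro j e
    unfold val
    rw [dotProduct_add, dotProduct_smul, smul_eq_mul]
    ring
  refine ⟨x₀ + s • w, Function.update a j₀ p, Function.update b j₀ q, ?_, ?_⟩
  · intro j _
    by_cases hj : j = j₀
    · subst hj
      rw [Function.update_self, Function.update_self]
      refine ⟨Finset.mem_filter.2 ⟨hp, fun e he => ?_⟩, Finset.mem_filter.2 ⟨hq, fun e he => ?_⟩⟩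
      · rw [hval, hval]; exact hpa e he
      · rw [hval, hval]; exact hqa e he
    · rw [Function.update_of_ne hj, Function.update_of_ne hj]
      obtain ⟨h1, h2⟩ := hab j (Finset.mem_univ _)
      have hne : a j ≠ b j := by
        intro h
        exact hu.ne_zero j (sub_eq_zero.2 h)
      have hA : ({a j, b j} : Finset (V n)) = A j := by
        refine Finset.eq_of_subset_of_card_le ?_ ?_
        · intro e he
          rw [Finset.mem_insert, Finset.mem_singleton] at he
          rcases he with rfl | rfl
          · exact h1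
          · exact h2
        · rw [htwo j hj, Finset.card_pair hne]
      have heq : val (c j) (a j) (x₀ + s • w) = val (c j) (b j) (x₀ + s • w) := by
        rw [hval, hval]
        have e1 := hx₀ j
        have e2 := hw j
        rw [sub_dotProduct] at e1
        rw [if_neg hj, sub_dotProduct] at e2
        have e3 : a j ⬝ᵥ w = b j ⬝ᵥ w := by linarith
        rw [e3]
        linarith
      have hmem : ∀ e ∈ A j, val (c j) e (x₀ + s • w) = val (c j) (b j) (x₀ + s • w) := by
        intro e he
        rw [← hA, Finset.mem_insert, Finset.mem_singleton] at he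
        rcases he with rfl | rfl
        · exact heq
        · rfl
      refine ⟨Finset.mem_filter.2 ⟨h1, fun e he => ?_⟩, Finset.mem_filter.2 ⟨h2, fun e he => ?_⟩⟩
      · rw [hmem e he, heq]
      · rw [hmem e he]
  · have hv : LinearIndependent ℝ
        (fun j : ι => Function.update a j₀ p j - Function.update b j₀ q j) := by
      rw [Fintype.linearIndependent_iff] at hu ⊢
      intro g hg
      have hg0 : g j₀ = 0 := by
        have h1 : (∑ j, g j • (Function.update a j₀ p j - Function.update b j₀ q j)) ⬝ᵥ w = 0 := by
          rw [hg, zero_dotProduct]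
        rw [sum_dotProduct, Finset.sum_eq_single j₀] at h1
        · rw [Function.update_self, Function.update_self, smul_dotProduct, sub_dotProduct,
            smul_eq_mul] at h1
          rcases mul_eq_zero.1 h1 with h | h
          · exact h
          · exact absurd (sub_eq_zero.1 h) hpq
        · intro j _ hj
          rw [Function.update_of_ne hj, Function.update_of_ne hj, smul_dotProduct, hw j, if_neg hj,
            smul_zero]
        · intro h
          exact absurd (Finset.mem_univ _) h
      refine hu g ?_
      rw [← hg]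
      refine Finset.sum_congr rfl fun j _ => ?_
      by_cases hj : j = j₀
      · rw [hj, hg0, zero_smul, zero_smul]
      · rw [Function.update_of_ne hj, Function.update_of_ne hj]
    exact hv.comp (fun j : (Finset.univ : Finset ι) => (j : ι)) Subtype.val_injective

end Pool.Agent.ST53.TaskLine
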