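import Pool.Agent.H53.ST.Stmts

set_option autoImplicit false

namespace Pool.Agent.ST53.TaskMaxAtt

open Matrix Topology Pool.Agent.H53.ST

private theorem ind_mono {n : ℕ} {ι : Type} (A B : ι → Finset (V n)) (J : Finset ι)
    (h : ∀ j, A j ⊆ B j) (hA : Ind A J) : Ind B J := by
  obtain ⟨a, b, h1, h2⟩ := hA
  exact ⟨a, b, fun j hj => ⟨h j (h1 j hj).1, h j (h1 j hj).2⟩, h2⟩

private theorem ind_reach {n : ℕ} {ι : Type} (A : ι → Finset (V n)) (c : ι → V n → ℝ)
    (J : Finset ι) (p : V n) (hp : Ind (acts A c p) J) (y : V n) (hy : y ∈ Reach A c J p) :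
    Ind (acts A c y) J := by
  have hy' : Relation.ReflTransGen (Adj A c J) p y := hy
  rcases Relation.ReflTransGen.cases_tail hy' with h | ⟨z, _, hz⟩
  · rw [h]; exact hp
  · exact hz.2

private theorem mem_act {n : ℕ} (A : Finset (V n)) (c : V n → ℝ) (x a : V n) :
    a ∈ act A c x ↔ a ∈ A ∧ ∀ b ∈ A, val c b x ≤ val c a x := by
  classical
  unfold act
  rw [Finset.mem_filter]

theorem main : Pool.Agent.H53.ST.TaskMaxAtt := by
  classical
  intro hLP n ι _ A c J p h M hA hp hM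
  -- one pattern
  have key : ∀ y ∈ Reach A c J p, ∃ q ∈ Reach A c J p, ∀ x ∈ Reach A c J p,
      acts A c x = acts A c y → h ⬝ᵥ x ≤ h ⬝ᵥ q := by
    intro y hy
    have hsub : ∀ x : V n, (∀ j, act (A j) (c j) y ⊆ act (A j) (c j) x) ↔
        ∀ i : (j : ι) × ↥((act (A j) (c j) y) ×ˢ (A j)),
          ((i.2 : V n × V n).2 - (i.2 : V n × V n).1) ⬝ᵥ x ≤
            c i.1 (i.2 : V n × V n).1 - c i.1 (i.2 : V n × V n).2 := by
      intro x
      constructor
      · rintro hx ⟨j, ⟨⟨a, b⟩, hab⟩⟩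
        rw [Finset.mem_product] at hab
        have h1 := ((mem_act _ _ _ _).1 (hx j hab.1)).2 b hab.2
        unfold val at h1
        simp only
        rw [sub_dotProduct]
        linarith
      · intro hx j a ha
        rw [mem_act]
        refine ⟨((mem_act _ _ _ _).1 ha).1, fun b hb => ?_⟩
        have h1 := hx ⟨j, ⟨(a, b), Finset.mem_product.2 ⟨ha, hb⟩⟩⟩
        simp only at h1
        rw [sub_dotProduct] at h1
        unfold val
        linarith
    have hin : ∀ x : V n, (∀ j, act (A j) (c j) y ⊆ act (A j) (c j) x) → x ∈ Reach A c J p := by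
      intro x hx
      have hi : Ind (acts A c x) J :=
        ind_mono _ _ J (fun j => hx j) (ind_reach A c J p hp y hy)
      have hy' : Relation.ReflTransGen (Adj A c J) p y := hy
      exact hy'.tail ⟨Or.inr hx, hi⟩
    obtain ⟨q, hq1, hq2⟩ := hLP n ((j : ι) × ↥((act (A j) (c j) y) ×ˢ (A j)))
      (fun i => (i.2 : V n × V n).2 - (i.2 : V n × V n).1)
      (fun i => c i.1 (i.2 : V n × V n).1 - c i.1 (i.2 : V n × V n).2) h y M
      ((hsub y).1 (fun j => Finset.Subset.refl _))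
      (fun x hx => hM x (hin x ((hsub x).2 hx)))
    refine ⟨q, hin q ((hsub q).2 hq1), fun x _ hxy => hq2 x ((hsub x).1 fun j => ?_)⟩
    have := congrFun hxy j
    unfold acts at this
    rw [this]
  have hfin : ((acts A c) '' (Reach A c J p)).Finite := by
    refine (Set.Finite.pi (t := fun j => ((A j).powerset : Set (Finset (V n))))
      (fun j => Finset.finite_toSet _)).subset ?_
    rintro f ⟨y, _, rfl⟩
    rw [Set.mem_univ_pi]
    intro j
    rw [Finset.mem_coe, Finset.mem_powerset]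
    intro a ha
    exact ((mem_act _ _ _ _).1 ha).1
  have hpR : p ∈ Reach A c J p := Relation.ReflTransGen.refl
  have key2 : ∀ f : ι → Finset (V n), f ∈ (acts A c) '' (Reach A c J p) →
      ∃ q ∈ Reach A c J p, ∀ x ∈ Reach A c J p, acts A c x = f → h ⬝ᵥ x ≤ h ⬝ᵥ q := by
    rintro f ⟨y, hy, rfl⟩
    exact key y hy
  choose! g hg1 hg2 using key2
  obtain ⟨f, hf, hmax⟩ := Set.exists_max_image ((acts A c) '' (Reach A c J p))
    (fun f => h ⬝ᵥ (g f)) hfin ⟨_, ⟨p, hpR, rfl⟩⟩
  refine ⟨g f, hg1 f hf, fun x hx => ?_⟩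
  exact (hg2 (acts A c x) ⟨x, hx, rfl⟩ x hx rfl).trans (hmax _ ⟨x, hx, rfl⟩)

end Pool.Agent.ST53.TaskMaxAtt
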