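import Pool.Agent.H53.ST.Stmts

/-! Lemma of the blueprint for MP_835643_co. -/

set_option autoImplicit false

namespace Pool.Agent.ST53.TaskNear

open Pool.Agent.H53.ST Matrix Topology

theorem mem_act {n : ℕ} {A : Finset (V n)} {c : V n → ℝ} {x a : V n} :
    a ∈ act A c x ↔ a ∈ A ∧ ∀ b ∈ A, val c b x ≤ val c a x := by
  classical
  unfold act
  rw [Finset.mem_filter]

theorem val_cont {n : ℕ} (c : V n → ℝ) (a : V n) : Continuous fun x => val c a x := by
  unfold val dotProduct
  fun_prop

theorem main : Pool.Agent.H53.ST.TaskNear := by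
  intro n ι _ A c q
  have h : ∀ᶠ y in 𝓝 q, ∀ j, ∀ a ∈ A j, a ∉ act (A j) (c j) q → a ∉ act (A j) (c j) y := by
    rw [Filter.eventually_all]
    intro j
    rw [Finset.eventually_all]
    intro a ha
    by_cases haq : a ∈ act (A j) (c j) q
    · exact Filter.Eventually.of_forall fun y hy => absurd haq hy
    · have : ∃ b ∈ A j, val (c j) a q < val (c j) b q := by
        by_contra hcon
        push Not at hcon
        exact haq (mem_act.2 ⟨ha, hcon⟩)
      obtain ⟨b, hb, hlt⟩ := this
      have hev : ∀ᶠ y in 𝓝 q, val (c j) a y < val (c j) b y :=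
        (val_cont (c j) a).continuousAt.eventually_lt (val_cont (c j) b).continuousAt hlt
      filter_upwards [hev] with y hy _ hay
      exact absurd ((mem_act.1 hay).2 b hb) (not_le.2 hy)
  obtain ⟨δ, hδ, hball⟩ := Metric.eventually_nhds_iff.1 h
  refine ⟨δ, hδ, fun y hy j a ha => ?_⟩
  by_contra hq
  exact hball (by rwa [dist_eq_norm]) j a (mem_act.1 ha).1 hq ha

end Pool.Agent.ST53.TaskNear
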