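import Pool.Agent.H53.ST.Stmts

set_option autoImplicit false

namespace Pool.Agent.ST53.TaskOpen

open Pool.Agent.H53.ST Matrix Topology

theorem continuous_val {n : ℕ} (α β : ℝ) (e : V n) {X : ℝ → V n} (hX : Continuous X) :
    Continuous fun t : ℝ => α + t * β + e ⬝ᵥ X t := by
  have h : Continuous fun t : ℝ => e ⬝ᵥ X t := by
    unfold dotProduct
    exact continuous_finsetSum _ fun i _ =>
      continuous_const.mul ((continuous_apply i).comp hX)
  exact (continuous_const.add (continuous_id.mul continuous_const)).add h

theorem main (hLin : TaskLin) : Pool.Agent.H53.ST.TaskOpen := by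
  classical
  intro n ι _ _ A c d t x hn h1 h2
  set ct : ℝ → ι → V n → ℝ := fun s j a => c j a + s * d j a with hct
  set A' : ι → Finset (V n) := acts A (ct t) x with hA'
  have hmem : ∀ j e, e ∈ A' j ↔ e ∈ A j ∧ ∀ b ∈ A j, val (ct t j) b x ≤ val (ct t j) e x := by
    intro j e
    simp only [hA', acts, act, Finset.mem_filter]
  have key : ∀ᶠ s in 𝓝 t, ∀ a ∈ Fintype.piFinset A', ∀ b ∈ Fintype.piFinset A',
      LinearIndependent ℝ (fun j => a j - b j) →
      ∀ x', (∀ j, (a j - b j) ⬝ᵥ x' = ct s j (b j) - ct s j (a j)) →
      ∀ j, ∀ e ∈ A j, e ∉ A' j → ∀ a' ∈ A' j, val (ct s j) e x' < val (ct s j) a' x' := by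
    rw [Filter.eventually_all_finset]
    intro a ha
    rw [Filter.eventually_all_finset]
    intro b hb
    by_cases hli : LinearIndependent ℝ (fun j => a j - b j)
    · obtain ⟨L, hL⟩ := hLin n ι (fun j => a j - b j) hn hli
      have hLc : Continuous L := L.continuous_of_finiteDimensional
      have hX : Continuous fun s : ℝ => L (fun j => ct s j (b j) - ct s j (a j)) := by
        refine hLc.comp (continuous_pi fun j => ?_)
        simp only [hct]
        fun_prop
      have hXt : L (fun j => ct t j (b j) - ct t j (a j)) = x := by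
        symm
        rw [← hL]
        intro j
        have ha' := (hmem j (a j)).1 (Fintype.mem_piFinset.1 ha j)
        have hb' := (hmem j (b j)).1 (Fintype.mem_piFinset.1 hb j)
        have e1 := ha'.2 _ hb'.1
        have e2 := hb'.2 _ ha'.1
        simp only [val] at e1 e2
        simp only [sub_dotProduct]
        linarith
      have hev : ∀ᶠ s in 𝓝 t, ∀ j, ∀ e ∈ A j, e ∉ A' j → ∀ a' ∈ A' j,
          val (ct s j) e (L (fun j => ct s j (b j) - ct s j (a j))) <
            val (ct s j) a' (L (fun j => ct s j (b j) - ct s j (a j))) := by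
        rw [Filter.eventually_all]
        intro j
        rw [Filter.eventually_all_finset]
        intro e he
        by_cases heA : e ∈ A' j
        · exact Filter.Eventually.of_forall fun s h => absurd heA h
        · have : ∀ᶠ s in 𝓝 t, ∀ a' ∈ A' j,
              val (ct s j) e (L (fun j => ct s j (b j) - ct s j (a j))) <
                val (ct s j) a' (L (fun j => ct s j (b j) - ct s j (a j))) := by
            rw [Filter.eventually_all_finset]
            intro a' ha'
            have c1 := (continuous_val (c j e) (d j e) e hX).continuousAt (x := t)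
            have c2 := (continuous_val (c j a') (d j a') a' hX).continuousAt (x := t)
            refine c1.eventually_lt c2 ?_
            change c j e + t * d j e + e ⬝ᵥ L (fun j => ct t j (b j) - ct t j (a j)) < c j a' + t * d j a' + a' ⬝ᵥ L (fun j => ct t j (b j) - ct t j (a j))
            rw [hXt]
            have ha2 := (hmem j a').1 ha'
            rw [hmem] at heA
            push Not at heA
            obtain ⟨b', hb', hlt⟩ := heA he
            exact lt_of_lt_of_le hlt (ha2.2 b' hb')
          filter_upwards [this] with s hs _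
          exact hs
      filter_upwards [hev] with s hs _ x' hx'
      have : x' = L (fun j => ct s j (b j) - ct s j (a j)) := (hL _ _).1 hx'
      rw [this]
      exact hs
    · exact Filter.Eventually.of_forall fun s h => absurd h hli
  filter_upwards [key] with s hs
  obtain ⟨x', a, b, hab, hli⟩ := h2 (ct s)
  have hm : ∀ j e, e ∈ acts A' (ct s) x' j ↔
      e ∈ A' j ∧ ∀ b ∈ A' j, val (ct s j) b x' ≤ val (ct s j) e x' := by
    intro j e
    simp only [acts, act, Finset.mem_filter]
  have hli' : LinearIndependent ℝ (fun j => a j - b j) :=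
    hli.comp (fun j => (⟨j, Finset.mem_univ j⟩ : (Finset.univ : Finset ι)))
      (fun i j h => by simpa using h)
  have ha : ∀ j, a j ∈ A' j ∧ ∀ b ∈ A' j, val (ct s j) b x' ≤ val (ct s j) (a j) x' :=
    fun j => (hm j (a j)).1 (hab j (Finset.mem_univ j)).1
  have hb : ∀ j, b j ∈ A' j ∧ ∀ b' ∈ A' j, val (ct s j) b' x' ≤ val (ct s j) (b j) x' :=
    fun j => (hm j (b j)).1 (hab j (Finset.mem_univ j)).2
  have hx' : ∀ j, (a j - b j) ⬝ᵥ x' = ct s j (b j) - ct s j (a j) := by
    intro j
    have e1 := (ha j).2 _ (hb j).1
    have e2 := (hb j).2 _ (ha j).1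
    simp only [val] at e1 e2
    simp only [sub_dotProduct]
    linarith
  have hst := hs a (Fintype.mem_piFinset.2 fun j => (ha j).1) b
    (Fintype.mem_piFinset.2 fun j => (hb j).1) hli' x' hx'
  refine ⟨x', a, b, fun j _ => ?_, hli⟩
  have hgen : ∀ a' : V n, (a' ∈ A' j ∧ ∀ b ∈ A' j, val (ct s j) b x' ≤ val (ct s j) a' x') →
      a' ∈ acts A (ct s) x' j := by
    intro a' ha'
    simp only [acts, act, Finset.mem_filter]
    refine ⟨((hmem j a').1 ha'.1).1, fun e he => ?_⟩
    by_cases heA : e ∈ A' j
    · exact ha'.2 e heA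
    · exact (hst j e he heA a' ha'.1).le
  exact ⟨hgen _ (ha j), hgen _ (hb j)⟩

end Pool.Agent.ST53.TaskOpen
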