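import Pool.Agent.H53.ST.Stmts

set_option autoImplicit false

namespace Pool.Agent.ST53.TaskPerp

open Matrix Topology Pool.Agent.H53.ST

theorem mem_act {n : ℕ} {A : Finset (V n)} {c : V n → ℝ} {x a : V n} :
    a ∈ act A c x ↔ a ∈ A ∧ ∀ b ∈ A, val c b x ≤ val c a x := by
  unfold act
  rw [Finset.mem_filter]

theorem main : Pool.Agent.H53.ST.TaskPerp := by
  intro n A c q y hsub hperp
  refine Finset.Subset.antisymm hsub ?_
  intro a ha
  obtain ⟨haA, hamax⟩ := mem_act.mp ha
  obtain ⟨m, hmA, hm⟩ := Finset.exists_max_image A (fun b => val c b y) ⟨a, haA⟩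
  have hmy : m ∈ act A c y := mem_act.mpr ⟨hmA, hm⟩
  have hmq := hsub hmy
  obtain ⟨_, hmmax⟩ := mem_act.mp hmq
  have h1 : val c a q = val c m q := le_antisymm (hmmax a haA) (hamax m hmA)
  have h2 := hperp a ha m hmq
  have h3 : val c a y = val c m y := by
    unfold val at h1 ⊢
    rw [sub_dotProduct, dotProduct_sub, dotProduct_sub] at h2
    linarith
  refine mem_act.mpr ⟨haA, fun b hb => ?_⟩
  rw [h3]
  exact hm b hb

end Pool.Agent.ST53.TaskPerp
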