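import Pool.Agent.H53.ST.Stmts

set_option autoImplicit false

namespace Pool.Agent.ST53.TaskR2

open Pool.Agent.H53.ST

open Classical in
/-- the family with one more set -/
noncomputable def A' {n : ℕ} {ι : Type} (A : ι → Finset (V n)) (ℓ : V n) :
    Option ι → Finset (V n) := fun o => o.elim {0, ℓ} A

theorem W_le {n : ℕ} {ι : Type} (A : ι → Finset (V n)) (ℓ : V n) (S : Finset ι)
    (S' : Finset (Option ι)) (h : ∀ i ∈ S, some i ∈ S') : W A S ≤ W (A' A ℓ) S' := by
  unfold W
  apply Submodule.span_mono
  rintro v ⟨j, hj, a, ha, b, hb, rfl⟩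
  exact ⟨some j, h j hj, a, ha, b, hb, rfl⟩

theorem mem_W {n : ℕ} {ι : Type} (A : ι → Finset (V n)) (ℓ : V n)
    (S' : Finset (Option ι)) (h : none ∈ S') : ℓ ∈ W (A' A ℓ) S' := by
  classical
  unfold W
  apply Submodule.subset_span
  refine ⟨none, h, ℓ, ?_, 0, ?_, by simp⟩
  · simp [A']
  · simp [A']

theorem main (_h1 : TaskRado) (h2 : TaskTrans) (h3 : TaskTransConv) : TaskR2 := by
  classical
  intro n ι _ A J ℓ hInd hall
  by_contra hcon
  push Not at hcon
  have key : Ind (A' A ℓ) (Finset.insertNone J) := by
    apply h2
    intro S' hS'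
    set S : Finset ι := Finset.eraseNone S' with hS
    have hSJ : S ⊆ J := by
      intro i hi
      rw [hS, Finset.mem_eraseNone] at hi
      have := hS' hi
      simpa using this
    have hmem : ∀ i ∈ S, some i ∈ S' := by
      intro i hi
      rwa [hS, Finset.mem_eraseNone] at hi
    have hWle := W_le A ℓ S S' hmem
    have hfin := h3 n ι A J hInd S hSJ
    by_cases hn : none ∈ S'
    · have hcard : S'.card = S.card + 1 := by
        have h1 : Finset.insertNone S = S' := by
          rw [hS, Finset.insertNone_eraseNone, Finset.insert_eq_of_mem hn]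
        rw [← h1, Finset.card_insertNone]
      rw [hcard]
      have hl := mem_W A ℓ S' hn
      rcases Nat.lt_or_ge S.card (Module.finrank ℝ (W A S)) with hlt | hge
      · exact le_trans hlt (Submodule.finrank_mono hWle)
      · have heq : Module.finrank ℝ (W A S) = S.card := le_antisymm hge hfin
        have hnot := hcon S hSJ heq
        have hlt : W A S < W (A' A ℓ) S' := by
          refine lt_of_le_of_ne hWle ?_
          intro he
          exact hnot (he ▸ hl)
        have := Submodule.finrank_lt_finrank_of_lt hlt
        omega
    · have hcard : S'.card = S.card := by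
        have h1 : S.map Function.Embedding.some = S' := by
          rw [hS, Finset.map_some_eraseNone, Finset.erase_eq_of_notMem hn]
        rw [← h1, Finset.card_map]
      rw [hcard]
      exact le_trans hfin (Submodule.finrank_mono hWle)
  obtain ⟨a, b, hab, hli⟩ := key
  have hnone : (none : Option ι) ∈ Finset.insertNone J := by simp
  have hsome : ∀ j : J, (some (j : ι) : Option ι) ∈ Finset.insertNone J := by
    intro j
    simp
  have hli1 : LinearIndependent ℝ (fun j : J => a (some (j : ι)) - b (some (j : ι))) := by
    have := hli.comp (fun j : J => (⟨some (j : ι), hsome j⟩ : Finset.insertNone J)) (by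
      intro x y hxy
      simp only [Subtype.mk.injEq, Option.some.injEq] at hxy
      exact Subtype.ext hxy)
    exact this
  have hl := hall (fun i => a (some i)) (fun i => b (some i)) (by
    intro j hj
    exact hab (some j) (by simpa using hj)) hli1
  have hd : a none - b none ∈ Submodule.span ℝ
      (Set.range fun j : J => a (some (j : ι)) - b (some (j : ι))) := by
    have h1 := hab none hnone
    have ha : a none = 0 ∨ a none = ℓ := by simpa [A'] using h1.1
    have hb : b none = 0 ∨ b none = ℓ := by simpa [A'] using h1.2
    have hm : ∀ v : V n, (v = 0 ∨ v = ℓ) → v ∈ Submodule.span ℝ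
      (Set.range fun j : J => a (some (j : ι)) - b (some (j : ι))) := by
      rintro v (rfl | rfl)
      · exact Submodule.zero_mem _
      · exact hl
    exact Submodule.sub_mem _ (hm _ ha) (hm _ hb)
  have hnot := hli.notMem_span_image (s := {x | (x : Option ι) ≠ none}) (x := ⟨none, hnone⟩)
    (by simp)
  apply hnot
  refine Submodule.span_mono ?_ hd
  rintro v ⟨j, rfl⟩
  exact ⟨⟨some (j : ι), hsome j⟩, by simp, rfl⟩

end Pool.Agent.ST53.TaskR2
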