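import Mathlib
import Pool.Agent.H53.ST.Stmts

set_option autoImplicit false

namespace Pool.Agent.ST53.TaskRado

open Pool.Agent.H53.ST Module

/-- the condition -/
def Cond {n : ℕ} {ι : Type} (U : ι → Submodule ℝ (V n)) : Prop :=
  ∀ S : Finset ι, S.card ≤ finrank ℝ (⨆ j ∈ S, U j : Submodule ℝ (V n))

lemma sup_update {n : ℕ} {ι : Type} [DecidableEq ι] (U : ι → Submodule ℝ (V n)) (j : ι)
    (H : Submodule ℝ (V n)) (S : Finset ι) (hj : j ∉ S) :
    (⨆ k ∈ S, Function.update U j H k) = ⨆ k ∈ S, U k := by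
  refine iSup_congr fun k => iSup_congr fun hk => ?_
  rw [Function.update_of_ne]
  rintro rfl
  exact hj hk

/-- exchange step -/
lemma step {n : ℕ} {ι : Type} [DecidableEq ι] (U : ι → Submodule ℝ (V n)) (hU : Cond U) (j : ι)
    (H₁ H₂ : Submodule ℝ (V n)) (h : H₁ ⊔ H₂ = U j) :
    Cond (Function.update U j H₁) ∨ Cond (Function.update U j H₂) := by
  by_contra hcon
  push Not at hcon
  obtain ⟨h1, h2⟩ := hcon
  have key : ∀ H : Submodule ℝ (V n), ¬ Cond (Function.update U j H) →
      ∃ S : Finset ι, j ∉ S ∧ finrank ℝ (H ⊔ ⨆ k ∈ S, U k : Submodule ℝ (V n)) ≤ S.card := by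
    intro H hH
    unfold Cond at hH
    push Not at hH
    obtain ⟨S, hS⟩ := hH
    by_cases hj : j ∈ S
    · refine ⟨S.erase j, Finset.notMem_erase _ _, ?_⟩
      have e : (⨆ k ∈ S, Function.update U j H k) = H ⊔ ⨆ k ∈ S.erase j, U k := by
        conv_lhs => rw [← Finset.insert_erase hj]
        rw [Finset.iSup_insert, Function.update_self, sup_update _ _ _ _ (Finset.notMem_erase _ _)]
      rw [e] at hS
      have := Finset.card_erase_add_one hj
      omega
    · rw [sup_update _ _ _ _ hj] at hS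
      exact absurd (hU S) (by omega)
  obtain ⟨S₁, hj1, hS1⟩ := key H₁ h1
  obtain ⟨S₂, hj2, hS2⟩ := key H₂ h2
  have hmod := Submodule.finrank_sup_add_finrank_inf_eq (H₁ ⊔ ⨆ k ∈ S₁, U k) (H₂ ⊔ ⨆ k ∈ S₂, U k)
  have hA : (insert j (S₁ ∪ S₂)).card ≤
      finrank ℝ ((H₁ ⊔ ⨆ k ∈ S₁, U k) ⊔ (H₂ ⊔ ⨆ k ∈ S₂, U k) : Submodule ℝ (V n)) := by
    refine (hU _).trans (Submodule.finrank_mono ?_)
    rw [Finset.iSup_insert, ← h]
    refine sup_le (sup_le (le_sup_left.trans le_sup_left) (le_sup_left.trans le_sup_right)) ?_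
    refine iSup₂_le fun k hk => ?_
    rcases Finset.mem_union.1 hk with hk | hk
    · exact (le_iSup₂_of_le (f := fun k (_ : k ∈ S₁) => U k) k hk le_rfl).trans
        (le_sup_right.trans le_sup_left)
    · exact (le_iSup₂_of_le (f := fun k (_ : k ∈ S₂) => U k) k hk le_rfl).trans
        (le_sup_right.trans le_sup_right)
  have hB : (S₁ ∩ S₂).card ≤
      finrank ℝ ((H₁ ⊔ ⨆ k ∈ S₁, U k) ⊓ (H₂ ⊔ ⨆ k ∈ S₂, U k) : Submodule ℝ (V n)) := by
    refine (hU _).trans (Submodule.finrank_mono ?_)
    refine iSup₂_le fun k hk => ?_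
    obtain ⟨hk1, hk2⟩ := Finset.mem_inter.1 hk
    exact le_inf ((le_iSup₂_of_le (f := fun k (_ : k ∈ S₁) => U k) k hk1 le_rfl).trans le_sup_right)
      ((le_iSup₂_of_le (f := fun k (_ : k ∈ S₂) => U k) k hk2 le_rfl).trans le_sup_right)
  have hc := Finset.card_union_add_card_inter S₁ S₂
  rw [Finset.card_insert_of_notMem (by simp [hj1, hj2])] at hA
  omega

lemma base {n : ℕ} {ι : Type} [Fintype ι] [DecidableEq ι] (U : ι → Submodule ℝ (V n)) (hU : Cond U)
    (h1 : ∀ j, finrank ℝ (U j) ≤ 1) :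
    ∃ u : ι → V n, (∀ j, u j ∈ U j) ∧ LinearIndependent ℝ u := by
  have h : ∀ j, ∃ u : V n, u ∈ U j ∧ U j = Submodule.span ℝ {u} := by
    intro j
    have hj := hU {j}
    rw [Finset.card_singleton, Finset.iSup_singleton] at hj
    have h2 : finrank ℝ (U j) = 1 := le_antisymm (h1 j) hj
    obtain ⟨v, hv0, hv⟩ := finrank_eq_one_iff'.1 h2
    refine ⟨v, v.2, le_antisymm ?_ ?_⟩
    · intro w hw
      obtain ⟨c, hc⟩ := hv ⟨w, hw⟩
      rw [Submodule.mem_span_singleton]
      exact ⟨c, by simpa using congrArg Subtype.val hc⟩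
    · rw [Submodule.span_singleton_le_iff_mem]
      exact v.2
  choose u hu1 hu2 using h
  refine ⟨u, hu1, ?_⟩
  rw [linearIndependent_iff_card_le_finrank_span]
  have := hU Finset.univ
  have e : (⨆ j ∈ (Finset.univ : Finset ι), U j) = Submodule.span ℝ (Set.range u) := by
    simp only [Finset.mem_univ, iSup_pos]
    rw [Submodule.span_range_eq_iSup]
    exact iSup_congr hu2
  rw [e] at this
  simpa [Set.finrank] using this

theorem main : Pool.Agent.H53.ST.TaskRado := by
  intro n ι _ _ U hU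
  have hU : Cond U := hU
  clear * - hU
  induction hN : ∑ j, finrank ℝ (U j) using Nat.strong_induction_on generalizing U with
  | _ N ih =>
    by_cases h1 : ∀ j, finrank ℝ (U j) ≤ 1
    · exact base U hU h1
    push Not at h1
    obtain ⟨j, hj⟩ := h1
    have hne : U j ≠ ⊥ := by
      intro h
      rw [h] at hj
      simp at hj
    obtain ⟨x, hx, hx0⟩ := (Submodule.ne_bot_iff _).1 hne
    have hle : Submodule.span ℝ {x} ≤ U j := by
      rw [Submodule.span_singleton_le_iff_mem]; exact hx
    obtain ⟨H, hH1, hH2⟩ : ∃ H : Submodule ℝ (V n), x ∉ H ∧ Submodule.span ℝ {x} ⊔ H = U j := by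
      obtain ⟨C, hC⟩ := Submodule.exists_isCompl (Submodule.span ℝ {x})
      refine ⟨C ⊓ U j, ?_, ?_⟩
      · intro hxC
        have : x ∈ Submodule.span ℝ {x} ⊓ C := ⟨Submodule.mem_span_singleton_self x, hxC.1⟩
        rw [hC.inf_eq_bot] at this
        exact hx0 (by simpa using this)
      · rw [← sup_inf_assoc_of_le _ hle, hC.sup_eq_top, top_inf_eq]
    have hlt1 : Submodule.span ℝ {x} < U j := by
      refine lt_of_le_of_ne hle fun h => ?_
      rw [← h, finrank_span_singleton hx0] at hj
      omega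
    have hlt2 : H < U j := by
      refine lt_of_le_of_ne (hH2 ▸ le_sup_right) fun h => ?_
      rw [h] at hH1
      exact hH1 hx
    have hgo : ∀ H' : Submodule ℝ (V n), H' < U j → Cond (Function.update U j H') →
        ∃ u : ι → V n, (∀ j, u j ∈ U j) ∧ LinearIndependent ℝ u := by
      intro H' hlt hc
      have hs : ∑ k, finrank ℝ (Function.update U j H' k) < N := by
        rw [← hN]
        refine Finset.sum_lt_sum (fun k _ => ?_) ⟨j, Finset.mem_univ _, ?_⟩
        · by_cases hk : k = j
          · subst hk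
            rw [Function.update_self]
            exact Submodule.finrank_mono hlt.le
          · rw [Function.update_of_ne hk]
        · rw [Function.update_self]
          exact Submodule.finrank_lt_finrank_of_lt hlt
      obtain ⟨u, hu, hli⟩ := ih _ hs (Function.update U j H') hc rfl
      refine ⟨u, fun k => ?_, hli⟩
      by_cases hk : k = j
      · subst hk
        have := hu k
        rw [Function.update_self] at this
        exact hlt.le this
      · have := hu k
        rwa [Function.update_of_ne hk] at this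
    rcases step U hU j _ _ hH2 with h | h
    · exact hgo _ hlt1 h
    · exact hgo _ hlt2 h

end Pool.Agent.ST53.TaskRado
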