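import Pool.Agent.H53.ST.Stmts

set_option autoImplicit false

namespace Pool.Agent.ST53.TaskRaise

open Pool.Agent.H53.ST Matrix Topology

theorem mem_act {n : ℕ} {A : Finset (V n)} {c : V n → ℝ} {x a : V n} :
    a ∈ act A c x ↔ a ∈ A ∧ ∀ b ∈ A, val c b x ≤ val c a x := by
  classical
  unfold act
  rw [Finset.mem_filter]

theorem Ind.mono {n : ℕ} {ι : Type} {A B : ι → Finset (V n)} {J : Finset ι}
    (h : ∀ j, A j ⊆ B j) (hA : Ind A J) : Ind B J := by
  obtain ⟨a, b, hab, hl⟩ := hA
  exact ⟨a, b, fun j hj => ⟨h j (hab j hj).1, h j (hab j hj).2⟩, hl⟩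

theorem main (hC : TaskClosed) (hO : TaskOpen) : Pool.Agent.H53.ST.TaskRaise := by
  intro n ι _ _ A c j₀ e hn he hsol hInd hne
  set d : ι → V n → ℝ := fun j a => if j = j₀ ∧ a = e then 1 else 0 with hd
  set T : Set ℝ := {t : ℝ | ∃ x, Ind (acts A (fun j a => c j a + t * d j a) x) Finset.univ} with hT
  have hclosed : IsClosed T := hC n ι A c d hn
  have hopen : IsOpen T := by
    rw [isOpen_iff_mem_nhds]
    rintro t ⟨x, hx⟩
    refine hO n ι A c d t x hn hx (hsol _ (fun j a ha => ?_) (hne t x) hx)
    exact (mem_act.1 ha).1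
  have hnon : T.Nonempty := by
    have h1 : ∀ j, Function.update A j₀ ((A j₀).erase e) j ⊆ A j := by
      intro j
      by_cases hj : j = j₀
      · subst hj
        rw [Function.update_self]
        exact Finset.erase_subset _ _
      · rw [Function.update_of_ne hj]
    have h2 : Function.update A j₀ ((A j₀).erase e) ≠ A := by
      intro h
      have h3 := congrFun h j₀
      rw [Function.update_self] at h3
      rw [← h3] at he
      exact absurd rfl (Finset.ne_of_mem_erase he)
    obtain ⟨x, hx⟩ := hsol _ h1 h2 hInd c
    obtain ⟨a, b, hab, hl⟩ := hx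
    have hb := (hab j₀ (Finset.mem_univ _)).1
    simp only [acts] at hb
    rw [Function.update_self, mem_act] at hb
    refine ⟨val (c j₀) (a j₀) x - val (c j₀) e x - 1, x, ?_⟩
    refine Ind.mono (fun j => ?_) ⟨a, b, hab, hl⟩
    intro y hy
    simp only [acts] at hy ⊢
    rw [mem_act] at hy ⊢
    refine ⟨h1 j hy.1, fun z hz => ?_⟩
    by_cases hj : j = j₀
    · subst hj
      rw [Function.update_self] at hy
      have hye : y ≠ e := Finset.ne_of_mem_erase hy.1
      have hvy : val (fun a' => c j a' + (val (c j) (a j) x - val (c j) e x - 1) * d j a') y x =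
          val (c j) y x := by
        simp only [val, hd]
        rw [if_neg (fun h => hye h.2)]
        ring
      rw [hvy]
      by_cases hze : z = e
      · subst hze
        have hvz : val (fun a' => c j a' + (val (c j) (a j) x - val (c j) z x - 1) * d j a') z x =
            val (c j) (a j) x - 1 := by
          simp only [val, hd]
          rw [if_pos ⟨trivial, trivial⟩]
          ring
        rw [hvz]
        have := hy.2 _ hb.1
        linarith
      · have hvz : val (fun a' => c j a' + (val (c j) (a j) x - val (c j) e x - 1) * d j a') z x =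
            val (c j) z x := by
          simp only [val, hd]
          rw [if_neg (fun h => hze h.2)]
          ring
        rw [hvz]
        exact hy.2 z (Finset.mem_erase.2 ⟨hze, hz⟩)
    · rw [Function.update_of_ne hj] at hy
      have hv : ∀ w, val (fun a' => c j a' + (val (c j₀) (a j₀) x - val (c j₀) e x - 1) * d j a') w x =
          val (c j) w x := by
        intro w
        simp only [val, hd]
        rw [if_neg (fun h => hj h.1)]
        ring
      rw [hv, hv]
      exact hy.2 z hz
  have huniv : T = Set.univ := IsClopen.eq_univ ⟨hclosed, hopen⟩ hnon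
  have h0 : (0 : ℝ) ∈ T := by
    rw [huniv]
    exact Set.mem_univ _
  obtain ⟨x, hx⟩ := h0
  refine ⟨x, ?_⟩
  simpa using hx

end Pool.Agent.ST53.TaskRaise
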