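import Pool.Agent.H53.ST.Stmts

/-! Lemma of the blueprint for MP_835643_co. -/

set_option autoImplicit false

namespace Pool.Agent.ST53.TaskSeg

open Pool.Agent.H53.ST Matrix

theorem mem_act {n : ℕ} {A : Finset (V n)} {c : V n → ℝ} {x a : V n} :
    a ∈ act A c x ↔ a ∈ A ∧ ∀ b ∈ A, val c b x ≤ val c a x := by
  classical
  unfold act
  rw [Finset.mem_filter]

theorem val_seg {n : ℕ} (c : V n → ℝ) (a q y : V n) (s : ℝ) :
    val c a (q + s • (y - q)) = (1 - s) * val c a q + s * val c a y := by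
  unfold val
  rw [dotProduct_add, dotProduct_smul, dotProduct_sub, smul_eq_mul]
  ring

theorem main : Pool.Agent.H53.ST.TaskSeg := by
  intro n A c q y hsub s hs0 hs1
  ext a
  constructor
  · intro ha
    obtain ⟨haA, hmax⟩ := mem_act.1 ha
    obtain ⟨a0, ha0A, ha0⟩ := Finset.exists_max_image A (fun b => val c b y) ⟨a, haA⟩
    have ha0y : a0 ∈ act A c y := mem_act.2 ⟨ha0A, ha0⟩
    obtain ⟨-, h0q⟩ := mem_act.1 (hsub ha0y)
    have h1 := hmax a0 ha0A
    rw [val_seg, val_seg] at h1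
    have h2 := h0q a haA
    have h3 : val c a0 y ≤ val c a y := by
      by_contra hlt
      push Not at hlt
      nlinarith [mul_nonneg (sub_nonneg.2 hs1) (sub_nonneg.2 h2), mul_pos hs0 (sub_pos.2 hlt)]
    exact mem_act.2 ⟨haA, fun b hb => (ha0 b hb).trans h3⟩
  · intro ha
    obtain ⟨haA, hmax⟩ := mem_act.1 ha
    obtain ⟨-, hq⟩ := mem_act.1 (hsub ha)
    refine mem_act.2 ⟨haA, fun b hb => ?_⟩
    rw [val_seg, val_seg]
    have h1 := mul_le_mul_of_nonneg_left (hq b hb) (sub_nonneg.2 hs1)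
    have h2 := mul_le_mul_of_nonneg_left (hmax b hb) hs0.le
    linarith

end Pool.Agent.ST53.TaskSeg
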