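import Pool.Agent.H53.ST.Stmts

set_option autoImplicit false

namespace Pool.Agent.ST53.TaskSmall

open Pool.Agent.H53.ST

lemma W_mono {n : ℕ} {ι : Type} (A : ι → Finset (V n)) {S T : Finset ι} (h : S ⊆ T) :
    W A S ≤ W A T :=
  Submodule.span_mono fun _ ⟨j, hj, r⟩ => ⟨j, h hj, r⟩

lemma W_union {n : ℕ} {ι : Type} [DecidableEq ι] (A : ι → Finset (V n)) (S T : Finset ι) :
    W A (S ∪ T) = W A S ⊔ W A T := by
  apply le_antisymm
  · refine Submodule.span_le.2 ?_
    rintro v ⟨j, hj, r⟩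
    rcases Finset.mem_union.1 hj with h | h
    · exact Submodule.mem_sup_left (Submodule.subset_span ⟨j, h, r⟩)
    · exact Submodule.mem_sup_right (Submodule.subset_span ⟨j, h, r⟩)
  · exact sup_le (W_mono A Finset.subset_union_left) (W_mono A Finset.subset_union_right)

lemma tight {n : ℕ} {ι : Type} [DecidableEq ι] (A : ι → Finset (V n)) (J : Finset ι)
    (h1 : ∀ S, S ⊆ J → S.card ≤ Module.finrank ℝ (W A S)) {S T : Finset ι} (hS : S ⊆ J)
    (hT : T ⊆ J) (hS' : Module.finrank ℝ (W A S) = S.card)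
    (hT' : Module.finrank ℝ (W A T) = T.card) :
    Module.finrank ℝ (W A (S ∪ T)) = (S ∪ T).card ∧
      Module.finrank ℝ (W A (S ∩ T)) = (S ∩ T).card ∧ W A (S ∩ T) = W A S ⊓ W A T := by
  have e1 := Submodule.finrank_sup_add_finrank_inf_eq (W A S) (W A T)
  have e2 := h1 (S ∪ T) (Finset.union_subset hS hT)
  have e3 := h1 (S ∩ T) (Finset.inter_subset_left.trans hS)
  have hle : W A (S ∩ T) ≤ W A S ⊓ W A T :=
    le_inf (W_mono A Finset.inter_subset_left) (W_mono A Finset.inter_subset_right)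
  have e4 := Submodule.finrank_mono hle
  have e5 := Finset.card_union_add_card_inter S T
  rw [W_union] at e2 ⊢
  refine ⟨by omega, by omega, Submodule.eq_of_le_of_finrank_eq hle (by omega)⟩

lemma exists_tight {n : ℕ} {ι : Type} [DecidableEq ι] (A : ι → Finset (V n))
    (J : Finset ι) (L : Submodule ℝ (V n)) (h1 : ∀ S, S ⊆ J → S.card ≤ Module.finrank ℝ (W A S))
    (h2 : ∀ ℓ ∈ L, ∃ S, S ⊆ J ∧ Module.finrank ℝ (W A S) = S.card ∧ ℓ ∈ W A S) :
    ∃ S, S ⊆ J ∧ Module.finrank ℝ (W A S) = S.card ∧ L ≤ W A S := by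
  classical
  have key : ∀ s : Finset (V n), (∀ x ∈ s, x ∈ L) →
      ∃ S, S ⊆ J ∧ Module.finrank ℝ (W A S) = S.card ∧ ∀ x ∈ s, x ∈ W A S := by
    intro s
    induction s using Finset.induction_on with
    | empty =>
      intro _
      refine ⟨∅, Finset.empty_subset _, ?_, by simp⟩
      have : W A ∅ = ⊥ := by
        unfold W
        rw [Submodule.span_eq_bot]
        rintro x ⟨j, hj, -⟩
        exact absurd hj (Finset.notMem_empty j)
      rw [this, finrank_bot, Finset.card_empty]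
    | insert x s hx ih =>
      intro h
      obtain ⟨S, hS1, hS2, hS3⟩ := ih fun y hy => h y (Finset.mem_insert_of_mem hy)
      obtain ⟨T, hT1, hT2, hT3⟩ := h2 x (h x (Finset.mem_insert_self x s))
      refine ⟨S ∪ T, Finset.union_subset hS1 hT1, (tight A J h1 hS1 hT1 hS2 hT2).1, ?_⟩
      intro y hy
      rcases Finset.mem_insert.1 hy with rfl | hy
      · exact W_mono A Finset.subset_union_right hT3
      · exact W_mono A Finset.subset_union_left (hS3 y hy)
  obtain ⟨s, hs⟩ := (IsNoetherian.noetherian L : L.FG)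
  obtain ⟨S, hS1, hS2, hS3⟩ := key s (fun x hx => by
    rw [← hs]
    exact Submodule.subset_span hx)
  refine ⟨S, hS1, hS2, ?_⟩
  rw [← hs]
  exact Submodule.span_le.2 hS3

theorem main : Pool.Agent.H53.ST.TaskSmall := by
  intro n ι _ A J L h1 h2
  obtain ⟨S0, h0⟩ := exists_tight A J L h1 h2
  obtain ⟨S, hS, hmin⟩ := (measure (Finset.card : Finset ι → ℕ)).wf.has_min
    {S : Finset ι | S ⊆ J ∧ Module.finrank ℝ (W A S) = S.card ∧ L ≤ W A S} ⟨S0, h0⟩
  obtain ⟨a1, a2, a3⟩ := hS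
  refine ⟨S, a1, a2, a3, fun T b1 b2 b3 => ?_⟩
  obtain ⟨-, c2, c3⟩ := tight A J h1 a1 b1 a2 b2
  have h4 := hmin (S ∩ T) ⟨Finset.inter_subset_left.trans a1, c2, c3 ▸ le_inf a3 b3⟩
  have h5 : ¬ (S ∩ T).card < S.card := h4
  have h6 : S ∩ T = S := Finset.eq_of_subset_of_card_le Finset.inter_subset_left (by omega)
  rw [← h6]
  exact Finset.inter_subset_right

end Pool.Agent.ST53.TaskSmall
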