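import Pool.Agent.H53.ST.Stmts

/-! Lemma of the blueprint for MP_835643_co. -/

set_option autoImplicit false

namespace Pool.Agent.ST53.TaskStab

open Pool.Agent.H53.ST Matrix

theorem mem_act {n : ℕ} {A : Finset (V n)} {c : V n → ℝ} {x a : V n} :
    a ∈ act A c x ↔ a ∈ A ∧ ∀ b ∈ A, val c b x ≤ val c a x := by
  classical
  unfold act
  rw [Finset.mem_filter]

theorem main : Pool.Agent.H53.ST.TaskStab := by
  intro hE hNear n ι _ _ A c J v p hcard hInd
  obtain ⟨δ', hδ', hnear⟩ := hNear n ι A c p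
  obtain ⟨x₁, hx₁⟩ := hE n J (fun j => act (A j) (c j) p) (fun j a => - (a ⬝ᵥ v j))
    (by rw [Fintype.card_coe, hcard]) (by
      obtain ⟨a, b, hab, hli⟩ := hInd
      refine ⟨fun j => a j, fun j => b j, fun j _ => hab j j.2, ?_⟩
      exact hli.comp (fun k : (Finset.univ : Finset J) => (k : J)) Subtype.val_injective)
  intro δ hδ
  set R : ℝ := ‖x₁‖ + ∑ j ∈ J, ‖x₁ - v j‖ + 1 with hR
  have hsum0 : 0 ≤ ∑ j ∈ J, ‖x₁ - v j‖ := Finset.sum_nonneg fun j _ => norm_nonneg _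
  have hRpos : 0 < R := by positivity
  refine ⟨min δ δ' / R, div_pos (lt_min hδ hδ') hRpos, fun ε hε hεlt => ?_⟩
  have hεR : ε * R < min δ δ' := by rwa [lt_div_iff₀ hRpos] at hεlt
  refine ⟨p + ε • x₁, ?_, ?_⟩
  · rw [add_sub_cancel_left, norm_smul, Real.norm_of_nonneg hε.le]
    calc ε * ‖x₁‖ ≤ ε * R := mul_le_mul_of_nonneg_left (by rw [hR]; linarith) hε.le
      _ < min δ δ' := hεR
      _ ≤ δ := min_le_left _ _
  · intro j hj
    have hclose : ‖(p + ε • x₁ - ε • v j) - p‖ < δ' := by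
      have : (p + ε • x₁ - ε • v j) - p = ε • (x₁ - v j) := by
        rw [smul_sub]; abel
      rw [this, norm_smul, Real.norm_of_nonneg hε.le]
      have h1 : ‖x₁ - v j‖ ≤ ∑ j ∈ J, ‖x₁ - v j‖ :=
        Finset.single_le_sum (f := fun j => ‖x₁ - v j‖) (fun j _ => norm_nonneg _) hj
      calc ε * ‖x₁ - v j‖ ≤ ε * R :=
            mul_le_mul_of_nonneg_left (by rw [hR]; linarith [norm_nonneg x₁]) hε.le
        _ < min δ δ' := hεR
        _ ≤ δ' := min_le_right _ _
    have hsub := hnear _ hclose j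
    have hval : ∀ a : V n, val (c j) a (p + ε • x₁ - ε • v j)
        = val (c j) a p + ε * val (fun a => - (a ⬝ᵥ v j)) a x₁ := by
      intro a
      unfold val
      rw [dotProduct_sub, dotProduct_add, dotProduct_smul, dotProduct_smul, smul_eq_mul,
        smul_eq_mul]
      ring
    have key : ∀ a : V n, a ∈ act (act (A j) (c j) p) (fun a => - (a ⬝ᵥ v j)) x₁ →
        a ∈ act (A j) (c j) (p + ε • x₁ - ε • v j) := by
      intro a ha
      obtain ⟨hap, hmax⟩ := mem_act.1 ha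
      obtain ⟨haA, hapm⟩ := mem_act.1 hap
      obtain ⟨b0, hb0A, hb0⟩ := Finset.exists_max_image (A j)
        (fun b => val (c j) b (p + ε • x₁ - ε • v j)) ⟨a, haA⟩
      have hb0act : b0 ∈ act (A j) (c j) p := hsub (mem_act.2 ⟨hb0A, hb0⟩)
      refine mem_act.2 ⟨haA, fun b hb => (hb0 b hb).trans ?_⟩
      rw [hval, hval]
      have h1 := hmax b0 hb0act
      have h2 := hapm b0 hb0A
      have h3 := mul_le_mul_of_nonneg_left h1 hε.le
      linarith
    obtain ⟨a, b, hab, hli⟩ := hx₁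
    obtain ⟨h1, h2⟩ := hab ⟨j, hj⟩ (Finset.mem_univ _)
    refine ⟨a ⟨j, hj⟩, key _ h1, b ⟨j, hj⟩, key _ h2, fun h => ?_⟩
    exact hli.ne_zero (⟨⟨j, hj⟩, Finset.mem_univ _⟩ : (Finset.univ : Finset J)) (sub_eq_zero.2 h)

end Pool.Agent.ST53.TaskStab
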