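import Mathlib
import Pool.Agent.H53.ST.Stmts

set_option autoImplicit false

namespace Pool.Agent.ST53.TaskStep

open Pool.Agent.H53.ST Matrix

theorem W_congr {n : ℕ} {ι : Type} (A B : ι → Finset (V n)) (S : Finset ι)
    (h : ∀ j ∈ S, A j = B j) : W A S = W B S := by
  unfold W
  congr 1
  ext v
  constructor
  · rintro ⟨j, hj, a, ha, b, hb, rfl⟩
    rw [h j hj] at ha hb
    exact ⟨j, hj, a, ha, b, hb, rfl⟩
  · rintro ⟨j, hj, a, ha, b, hb, rfl⟩
    rw [← h j hj] at ha hb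
    exact ⟨j, hj, a, ha, b, hb, rfl⟩

theorem main : Pool.Agent.H53.ST.TaskStep := by
  intro hT hP n ι _ A c q y J S T L hyq hInd hSJ hSt hLS hSmin hTJ hTt hLT hTmin
  have h1 := hT n ι A c q y J S hyq hInd hSJ hSt
  have h2 : ∀ j ∈ S, act (A j) (c j) y = act (A j) (c j) q := by
    intro j hj
    refine hP n (A j) (c j) q y (hyq j) fun a ha b hb => h1 _ ?_
    exact Submodule.subset_span ⟨j, hj, a, ha, b, hb, rfl⟩
  have h3 : W (acts A c y) S = W (acts A c q) S := W_congr _ _ _ h2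
  have h4 : T ⊆ S := hTmin S hSJ (by rw [h3]; exact hSt) (by rw [h3]; exact hLS)
  have h5 : W (acts A c q) T = W (acts A c y) T :=
    W_congr _ _ _ fun j hj => (h2 j (h4 hj)).symm
  have h6 : S ⊆ T := hSmin T hTJ (by rw [h5]; exact hTt) (by rw [h5]; exact hLT)
  exact ⟨Finset.Subset.antisymm h6 h4, h2⟩

end Pool.Agent.ST53.TaskStep
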