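import Pool.Agent.H53.ST.Stmts

/-! Lemma of the blueprint for MP_835643_co. -/

set_option autoImplicit false

namespace Pool.Agent.ST53.TaskTight

open Pool.Agent.H53.ST Matrix

theorem mem_act {n : ℕ} {A : Finset (V n)} {c : V n → ℝ} {x a : V n} :
    a ∈ act A c x ↔ a ∈ A ∧ ∀ b ∈ A, val c b x ≤ val c a x := by
  classical
  unfold act
  rw [Finset.mem_filter]

theorem val_eq {n : ℕ} {A : Finset (V n)} {c : V n → ℝ} {x a b : V n} (ha : a ∈ act A c x)
    (hb : b ∈ act A c x) : val c a x = val c b x :=
  le_antisymm ((mem_act.1 hb).2 a (mem_act.1 ha).1) ((mem_act.1 ha).2 b (mem_act.1 hb).1)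

theorem main : Pool.Agent.H53.ST.TaskTight := by
  intro n ι A c q y J S hsub hInd hSJ hfin v hv
  obtain ⟨a, b, hab, hli⟩ := hInd
  have hliS : LinearIndependent ℝ (fun j : S => a j - b j) :=
    hli.comp (fun j : S => (⟨j, hSJ j.2⟩ : J)) (fun x z hxz => by
      apply Subtype.ext
      have := congrArg (fun t : J => (t : ι)) hxz
      simpa using this)
  have hle : Submodule.span ℝ (Set.range fun j : S => a j - b j) ≤ W (acts A c q) S := by
    rw [Submodule.span_le]
    rintro _ ⟨j, rfl⟩
    refine Submodule.subset_span ⟨j, j.2, a j, ?_, b j, ?_, rfl⟩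
    · exact hsub j (hab j (hSJ j.2)).1
    · exact hsub j (hab j (hSJ j.2)).2
  have heq : Submodule.span ℝ (Set.range fun j : S => a j - b j) = W (acts A c q) S := by
    refine Submodule.eq_of_le_of_finrank_le hle ?_
    rw [hfin, finrank_span_eq_card hliS, Fintype.card_coe]
  rw [← heq] at hv
  induction hv using Submodule.span_induction with
  | mem x hx =>
    obtain ⟨j, rfl⟩ := hx
    have h1 := (hab j (hSJ j.2)).1
    have h2 := (hab j (hSJ j.2)).2
    have e1 := val_eq h1 h2
    have e2 := val_eq (hsub j h1) (hsub j h2)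
    unfold val at e1 e2
    rw [dotProduct_sub, sub_dotProduct, sub_dotProduct]
    linarith
  | zero => exact zero_dotProduct _
  | add x z _ _ hx hz => rw [add_dotProduct, hx, hz, add_zero]
  | smul r x _ hx => rw [smul_dotProduct, hx, smul_zero]

end Pool.Agent.ST53.TaskTight
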