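import Mathlib
import Pool.Agent.H53.ST.Stmts

set_option autoImplicit false

namespace Pool.Agent.ST53.TaskTrans

open Pool.Agent.H53.ST Module

lemma upd {n : ℕ} {κ : Type} [DecidableEq κ] (u : κ → V n) (hu : LinearIndependent ℝ u) (j : κ)
    (d : V n) (hd : d ∉ Submodule.span ℝ (u '' ({j}ᶜ : Set κ))) :
    LinearIndependent ℝ (Function.update u j d) := by
  have hun : (Set.univ : Set κ) = insert j ({j}ᶜ : Set κ) := by
    ext k; simp [em]
  have heq : Set.EqOn u (Function.update u j d) ({j}ᶜ : Set κ) := by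
    intro k hk
    rw [Function.update_of_ne hk]
  rw [← linearIndepOn_univ_iff, hun]
  apply LinearIndepOn.insert
  · have h1 : LinearIndepOn ℝ u ({j}ᶜ : Set κ) := hu.linearIndepOn _
    exact h1.congr heq
  · rw [Function.update_self, ← heq.image_eq]
    exact hd

theorem main (h : TaskRado) : Pool.Agent.H53.ST.TaskTrans := by
  intro n ι _ A J hJ
  obtain ⟨u, hu, hli⟩ := h n J (fun j => W A {(j : ι)}) (by
    intro S
    have h1 := hJ (S.map (Function.Embedding.subtype _)) (by
      intro k hk
      simp only [Finset.mem_map, Function.Embedding.coe_subtype] at hk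
      obtain ⟨x, _, rfl⟩ := hk
      exact x.2)
    rw [Finset.card_map] at h1
    refine h1.trans (Submodule.finrank_mono ?_)
    unfold W
    rw [Submodule.span_le]
    rintro v ⟨j, hj, a, ha, b, hb, rfl⟩
    simp only [Finset.mem_map, Function.Embedding.coe_subtype] at hj
    obtain ⟨x, hx, rfl⟩ := hj
    have h2 : Submodule.span ℝ {v | ∃ j ∈ ({(x : ι)} : Finset ι), ∃ a ∈ A j, ∃ b ∈ A j, v = a - b} ≤
        ⨆ j ∈ S, Submodule.span ℝ {v | ∃ k ∈ ({(j : ι)} : Finset ι), ∃ a ∈ A k, ∃ b ∈ A k, v = a - b} :=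
      le_iSup₂_of_le (f := fun (j : J) (_ : j ∈ S) => Submodule.span ℝ
        {v | ∃ k ∈ ({(j : ι)} : Finset ι), ∃ a ∈ A k, ∃ b ∈ A k, v = a - b}) x hx le_rfl
    exact h2 (Submodule.subset_span ⟨x, Finset.mem_singleton_self _, a, ha, b, hb, rfl⟩))
  have key : ∀ T : Finset J, ∃ u' : J → V n, LinearIndependent ℝ u' ∧
      (∀ k ∈ T, ∃ a ∈ A k, ∃ b ∈ A k, u' k = a - b) ∧ (∀ k : J, u' k ∈ W A {(k : ι)}) := by
    intro T
    induction T using Finset.induction_on with
    | empty => exact ⟨u, hli, by simp, hu⟩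
    | insert j T hj ih =>
      obtain ⟨u', hli', h1, h2⟩ := ih
      have hnot : u' j ∉ Submodule.span ℝ (u' '' ({j}ᶜ : Set J)) := by
        have := (linearIndependent_iff_notMem_span.1 hli') j
        rwa [← Set.compl_eq_univ_sdiff] at this
      have hex : ∃ a ∈ A j, ∃ b ∈ A j, a - b ∉ Submodule.span ℝ (u' '' ({j}ᶜ : Set J)) := by
        by_contra hcon
        push Not at hcon
        refine hnot ?_
        have h3 : W A {(j : ι)} ≤ Submodule.span ℝ (u' '' ({j}ᶜ : Set J)) := by
          unfold W
          rw [Submodule.span_le]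
          rintro v ⟨k, hk, a, ha, b, hb, rfl⟩
          rw [Finset.mem_singleton] at hk
          subst hk
          exact hcon a ha b hb
        exact h3 (h2 j)
      obtain ⟨a, ha, b, hb, hab⟩ := hex
      refine ⟨Function.update u' j (a - b), upd u' hli' j _ hab, ?_, ?_⟩
      · intro k hk
        by_cases hkj : k = j
        · subst hkj
          exact ⟨a, ha, b, hb, Function.update_self _ _ _⟩
        · rw [Function.update_of_ne hkj]
          exact h1 k (Finset.mem_of_mem_insert_of_ne hk hkj)
      · intro k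
        by_cases hkj : k = j
        · subst hkj
          rw [Function.update_self]
          exact Submodule.subset_span ⟨k, Finset.mem_singleton_self _, a, ha, b, hb, rfl⟩
        · rw [Function.update_of_ne hkj]
          exact h2 k
  obtain ⟨u', hli', h1, -⟩ := key Finset.univ
  choose! a ha b hb hab using fun k : J => h1 k (Finset.mem_univ k)
  refine ⟨fun i => if hi : i ∈ J then a ⟨i, hi⟩ else 0, fun i => if hi : i ∈ J then b ⟨i, hi⟩ else 0,
    ?_, ?_⟩
  · intro j hj
    simp only [hj, dif_pos]
    exact ⟨ha ⟨j, hj⟩, hb ⟨j, hj⟩⟩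
  · convert hli' using 1
    funext k
    simp only [k.2, dif_pos]
    exact (hab k).symm

end Pool.Agent.ST53.TaskTrans
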