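import Pool.Agent.H53.ST.Stmts

set_option autoImplicit false

namespace Pool.Agent.ST53.TaskTransConv

open Pool.Agent.H53.ST

theorem main : Pool.Agent.H53.ST.TaskTransConv := by
  intro n ι A J hJ S hS
  obtain ⟨a, b, hab, hli⟩ := hJ
  have h1 : LinearIndependent ℝ (fun j : S => a j - b j) :=
    hli.comp (fun j : S => (⟨j.1, hS j.2⟩ : J)) (fun x y h => by
      have := congrArg Subtype.val h
      exact Subtype.ext this)
  let v : S → W A S := fun j => ⟨a j - b j, Submodule.subset_span
    ⟨j.1, j.2, a j, (hab j.1 (hS j.2)).1, b j, (hab j.1 (hS j.2)).2, rfl⟩⟩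
  have h2 : LinearIndependent ℝ v := by
    refine LinearIndependent.of_comp (W A S).subtype ?_
    exact h1
  have h3 := h2.fintype_card_le_finrank
  rwa [Fintype.card_coe] at h3

end Pool.Agent.ST53.TaskTransConv
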