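import Pool.Agent.H53.ST.Stmts

set_option autoImplicit false

namespace Pool.Agent.ST53.TaskMaxP

open Pool.Agent.H53.ST Matrix Topology

theorem act_eq {n : ℕ} {A : Finset (V n)} {c : V n → ℝ} {q a b : V n} (ha : a ∈ act A c q)
    (hb : b ∈ act A c q) : val c a q = val c b q := by
  unfold act at ha hb
  rw [Finset.mem_filter] at ha hb
  exact le_antisymm (hb.2 a ha.1) (ha.2 b hb.1)

theorem diff_eq {n : ℕ} {A : Finset (V n)} {c : V n → ℝ} {q y a b : V n} (ha : a ∈ act A c q)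
    (hb : b ∈ act A c q) (ha' : a ∈ act A c y) (hb' : b ∈ act A c y) :
    (a - b) ⬝ᵥ q = (a - b) ⬝ᵥ y := by
  have h1 := act_eq ha hb
  have h2 := act_eq ha' hb'
  unfold val at h1 h2
  rw [sub_dotProduct, sub_dotProduct]
  linarith

theorem perp {n : ℕ} {ι : Type} (A : ι → Finset (V n))
    (c : ι → V n → ℝ) (J : Finset ι) (h q y : V n) (a b : ι → V n)
    (hq : ∀ j ∈ J, a j ∈ act (A j) (c j) q ∧ b j ∈ act (A j) (c j) q)
    (hy : ∀ j ∈ J, a j ∈ act (A j) (c j) y ∧ b j ∈ act (A j) (c j) y)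
    (hh : h ∈ Submodule.span ℝ (Set.range fun j : J => a j - b j)) : h ⬝ᵥ q = h ⬝ᵥ y := by
  induction hh using Submodule.span_induction with
  | mem x hx =>
    obtain ⟨j, rfl⟩ := hx
    exact diff_eq (hq j j.2).1 (hq j j.2).2 (hy j j.2).1 (hy j j.2).2
  | zero => simp
  | add x z _ _ h1 h2 => rw [add_dotProduct, add_dotProduct, h1, h2]
  | smul r x _ h1 => rw [smul_dotProduct, smul_dotProduct, h1]

theorem main : Pool.Agent.H53.ST.TaskMaxP := by
  rintro - - n ι _ A c J p h - hp hmove ⟨qs, hqs, hmaxs⟩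
  have hInd : ∀ x ∈ Reach A c J p, Ind (acts A c x) J := by
    intro x hx
    rcases Relation.ReflTransGen.cases_tail hx with rfl | ⟨z, _, hz⟩
    · exact hp
    · exact hz.2
  -- the transversals at points of the maximum
  have hA : ∀ q ∈ Reach A c J p, h ⬝ᵥ q = h ⬝ᵥ qs → ∀ a b : ι → V n,
      (∀ j ∈ J, a j ∈ act (A j) (c j) q ∧ b j ∈ act (A j) (c j) q) →
      LinearIndependent ℝ (fun j : J => a j - b j) →
      h ∈ Submodule.span ℝ (Set.range fun j : J => a j - b j) := by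
    intro q hq hM a b hab hli
    by_contra hcon
    obtain ⟨y, hy1, hy2, hy3⟩ := hmove q a b hab hli hcon
    have hy : y ∈ Reach A c J p := Relation.ReflTransGen.tail hq ⟨Or.inl hy1, hy2⟩
    have := hmaxs y hy
    rw [dotProduct_sub] at hy3
    linarith
  have hperp : ∀ (q y : V n) (a b : ι → V n),
      (∀ j ∈ J, a j ∈ act (A j) (c j) q ∧ b j ∈ act (A j) (c j) q) →
      (∀ j ∈ J, a j ∈ act (A j) (c j) y ∧ b j ∈ act (A j) (c j) y) →
      h ∈ Submodule.span ℝ (Set.range fun j : J => a j - b j) → h ⬝ᵥ q = h ⬝ᵥ y :=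
    fun q y a b hq hy hh => perp A c J h q y a b hq hy hh
  have hstep : ∀ q y, q ∈ Reach A c J p → Adj A c J q y →
      (h ⬝ᵥ q = h ⬝ᵥ qs ↔ h ⬝ᵥ y = h ⬝ᵥ qs) := by
    intro q y hq hadj
    have hy : y ∈ Reach A c J p := Relation.ReflTransGen.tail hq hadj
    obtain ⟨a, b, hab, hli, hq', hy'⟩ : ∃ a b : ι → V n, True ∧
        LinearIndependent ℝ (fun j : J => a j - b j) ∧
        (∀ j ∈ J, a j ∈ act (A j) (c j) q ∧ b j ∈ act (A j) (c j) q) ∧
        (∀ j ∈ J, a j ∈ act (A j) (c j) y ∧ b j ∈ act (A j) (c j) y) := by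
      rcases hadj.1 with h1 | h1
      · obtain ⟨a, b, hab, hli⟩ := hadj.2
        exact ⟨a, b, trivial, hli, fun j hj => ⟨h1 j (hab j hj).1, h1 j (hab j hj).2⟩, hab⟩
      · obtain ⟨a, b, hab, hli⟩ := hInd q hq
        exact ⟨a, b, trivial, hli, hab, fun j hj => ⟨h1 j (hab j hj).1, h1 j (hab j hj).2⟩⟩
    constructor
    · intro hM
      rw [← hperp q y a b hq' hy' (hA q hq hM a b hq' hli), hM]
    · intro hM
      rw [hperp q y a b hq' hy' (hA y hy hM a b hy' hli), hM]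
  have hall : ∀ x, Relation.ReflTransGen (Adj A c J) p x →
      (h ⬝ᵥ p = h ⬝ᵥ qs ↔ h ⬝ᵥ x = h ⬝ᵥ qs) := by
    intro x hx
    induction hx with
    | refl => exact Iff.rfl
    | tail hpy hyz ih => exact ih.trans (hstep _ _ hpy hyz)
  have hpM : h ⬝ᵥ p = h ⬝ᵥ qs := (hall qs hqs).2 rfl
  intro x hx
  rw [(hall x hx).1 hpM, hpM]

end Pool.Agent.ST53.TaskMaxP
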