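import Pool.Agent.H53.ST.Stmts

set_option autoImplicit false

namespace Pool.Agent.ST53.TaskMove

open Matrix Topology Pool.Agent.H53.ST

theorem mem_act {n : ℕ} {A : Finset (V n)} {c : V n → ℝ} {x a : V n} :
    a ∈ act A c x ↔ a ∈ A ∧ ∀ b ∈ A, val c b x ≤ val c a x := by
  simp [act]

theorem aux (hE : TaskE) (hNear : TaskNear) : ∀ (n : ℕ) (ι : Type) [Finite ι] [DecidableEq ι]
    (A : ι → Finset (V n)) (c : ι → V n → ℝ) (q : V n) (J : Finset ι) (a b : ι → V n) (ℓ : V n),
    (∀ j ∈ J, a j ∈ act (A j) (c j) q ∧ b j ∈ act (A j) (c j) q) →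
    LinearIndependent ℝ (fun j : J => a j - b j) → J.card < n →
    ℓ ∉ Submodule.span ℝ (Set.range fun j : J => a j - b j) →
    ∃ y, (∀ j, act (A j) (c j) y ⊆ act (A j) (c j) q) ∧ Ind (acts A c y) J ∧
      0 < ℓ ⬝ᵥ (y - q) := by
  classical
  intro n ι _ _ A c q J a b ℓ hab hli _ hl
  set u : J → V n := fun j => a j - b j with hu
  obtain ⟨δ, hδ, hnear⟩ := hNear n ι A c q
  -- the independent family with `ℓ`
  have hopt : LinearIndependent ℝ (fun o : Option J => o.elim ℓ u) :=
    linearIndependent_option.2 ⟨hli, hl⟩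
  have hset : LinearIndepOn ℝ id (Set.range fun o : Option J => (o.elim ℓ u : V n)) :=
    hopt.linearIndepOn_id
  obtain ⟨B, hsub, bs, hbsv⟩ : ∃ (B : Set (V n))
      (_ : (Set.range fun o : Option J => (o.elim ℓ u : V n)) ⊆ B)
      (bs : Module.Basis B ℝ (V n)), ∀ k : B, bs k = (k : V n) :=
    ⟨_, hset.subset_extend _, Module.Basis.extend hset, Module.Basis.extend_apply_self hset⟩
  have : Fintype B := FiniteDimensional.fintypeBasisIndex bs
  have hcard : Fintype.card B = n := by
    have := Module.finrank_eq_card_basis bs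
    rw [← this]; simp
  have hBli : LinearIndependent ℝ (fun k : B => (k : V n)) := by
    have := bs.linearIndependent
    have e : (bs : B → V n) = fun k : B => (k : V n) := funext hbsv
    rwa [e] at this
  let P : B → Prop := fun k => ∃ j : J, u j = (k : V n)
  let A' : B → Finset (V n) := fun k =>
    if h : P k then act (A h.choose) (c h.choose) q else {0, (k : V n)}
  let c' : B → V n → ℝ := fun k v => if P k then 0 else if v = 0 then 1 else 0
  have hInd : Ind A' Finset.univ := by
    refine ⟨fun k => if h : P k then a h.choose else (k : V n),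
      fun k => if h : P k then b h.choose else 0, ?_, ?_⟩
    · intro k _
      by_cases h : P k
      · simp only [A', dif_pos h]
        exact hab _ h.choose.2
      · simp only [A', dif_neg h]
        simp
    · have e : (fun k : (Finset.univ : Finset B) =>
          ((if h : P k then a h.choose else ((k : B) : V n)) -
            (if h : P k then b h.choose else 0))) =
          (fun k : B => (k : V n)) ∘ (fun k : (Finset.univ : Finset B) => (k : B)) := by
        funext k
        by_cases h : P k
        · simp only [dif_pos h, Function.comp_apply]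
          exact h.choose_spec
        · simp only [dif_neg h, Function.comp_apply, sub_zero]
      rw [e]
      exact hBli.comp _ Subtype.val_injective
  obtain ⟨x, a2, b2, hab2, hli2⟩ := hE n B A' c' hcard hInd
  have hne : ∀ k : B, a2 k ≠ b2 k := by
    intro k h
    have := hli2.ne_zero (⟨k, Finset.mem_univ k⟩ : (Finset.univ : Finset B))
    exact this (by simp [h])
  have hact : ∀ k : B, a2 k ∈ act (A' k) (c' k) x ∧ b2 k ∈ act (A' k) (c' k) x :=
    fun k => hab2 k (Finset.mem_univ k)
  -- the vector `ℓ`
  let k0 : B := ⟨ℓ, hsub ⟨none, rfl⟩⟩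
  have hk0 : ¬ P k0 := by
    rintro ⟨j, hj⟩
    have hj' : u j = ℓ := hj
    rw [← hj'] at hl
    exact hl (Submodule.subset_span ⟨j, rfl⟩)
  have hlx : ℓ ⬝ᵥ x = 1 := by
    have hA0 : A' k0 = {0, ℓ} := by simp only [A', dif_neg hk0]; rfl
    have hc0 : ∀ v, c' k0 v = if v = 0 then 1 else 0 := fun v => by simp only [c', if_neg hk0]
    have hl0 : ℓ ≠ 0 := by
      intro h; exact hl (h ▸ Submodule.zero_mem _)
    obtain ⟨h1, h2⟩ := hact k0
    rw [mem_act, hA0] at h1 h2
    have h12 := h1.2 _ h2.1
    have h21 := h2.2 _ h1.1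
    have heq := le_antisymm h12 h21
    have v0 : val (c' k0) 0 x = 1 := by simp [val, hc0]
    have vl : val (c' k0) ℓ x = ℓ ⬝ᵥ x := by simp [val, hc0, hl0]
    have m1 : a2 k0 = 0 ∨ a2 k0 = ℓ := by simpa using h1.1
    have m2 : b2 k0 = 0 ∨ b2 k0 = ℓ := by simpa using h2.1
    rcases m1 with m1 | m1 <;> rcases m2 with m2 | m2
    · exact absurd (m1.trans m2.symm) (hne k0)
    · rw [m1, m2, v0, vl] at heq; exact heq
    · rw [m1, m2, v0, vl] at heq; exact heq.symm
    · exact absurd (m1.trans m2.symm) (hne k0)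
  -- the point `y`
  obtain ⟨s, hs, hsδ⟩ : ∃ s : ℝ, 0 < s ∧ ‖s • x‖ < δ := by
    refine ⟨δ / (2 * (‖x‖ + 1)), by positivity, ?_⟩
    rw [norm_smul, Real.norm_of_nonneg (by positivity)]
    have h1 : 0 ≤ ‖x‖ := norm_nonneg x
    rw [div_mul_eq_mul_div, div_lt_iff₀ (by positivity)]
    nlinarith
  have hsub' : ∀ j, act (A j) (c j) (q + s • x) ⊆ act (A j) (c j) q := by
    refine hnear _ ?_
    simpa using hsδ
  refine ⟨q + s • x, hsub', ?_, ?_⟩
  · -- membership
    have hval : ∀ (j : ι) (v : V n), val (c j) v (q + s • x) = val (c j) v q + s * (v ⬝ᵥ x) := by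
      intro j v
      simp only [val, dotProduct_add, dotProduct_smul, smul_eq_mul]
      ring
    have key : ∀ (j : ι) (v : V n), v ∈ act (act (A j) (c j) q) (fun _ => 0) x →
        v ∈ act (A j) (c j) (q + s • x) := by
      intro j v hv
      rw [mem_act] at hv
      obtain ⟨hv1, hv2⟩ := hv
      have hvA := (mem_act.1 hv1).1
      obtain ⟨w, hw, hwmax⟩ := Finset.exists_max_image (A j)
        (fun w => val (c j) w (q + s • x)) ⟨v, hvA⟩
      have hwact : w ∈ act (A j) (c j) (q + s • x) := mem_act.2 ⟨hw, hwmax⟩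
      have hwq := hsub' j hwact
      have h3 := hv2 w hwq
      simp only [val, zero_add] at h3
      have h4 : val (c j) w q ≤ val (c j) v q := (mem_act.1 hv1).2 w hw
      refine mem_act.2 ⟨hvA, fun t ht => (hwmax t ht).trans ?_⟩
      rw [hval, hval]
      have := mul_le_mul_of_nonneg_left h3 hs.le
      linarith
    let e : J → B := fun j => ⟨u j, hsub ⟨some j, rfl⟩⟩
    have he : Function.Injective e := by
      intro i j hij
      exact hli.injective (congrArg Subtype.val hij)
    have hPe : ∀ j : J, P (e j) := fun j => ⟨j, rfl⟩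
    have hch : ∀ j : J, (hPe j).choose = j := fun j => hli.injective (hPe j).choose_spec
    have hA'e : ∀ j : J, A' (e j) = act (A j) (c j) q := by
      intro j
      simp only [A', dif_pos (hPe j)]
      rw [hch j]
    have hc'e : ∀ j : J, c' (e j) = fun _ => 0 := by
      intro j
      funext v
      simp only [c', if_pos (hPe j)]
    refine ⟨fun j => if h : j ∈ J then a2 (e ⟨j, h⟩) else 0,
      fun j => if h : j ∈ J then b2 (e ⟨j, h⟩) else 0, ?_, ?_⟩
    · intro j hj
      have h := hact (e ⟨j, hj⟩)
      rw [hA'e, hc'e] at h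
      simp only [dif_pos hj, acts]
      exact ⟨key j _ h.1, key j _ h.2⟩
    · have e2 : (fun j : J => ((if h : (j : ι) ∈ J then a2 (e ⟨j, h⟩) else 0) -
          (if h : (j : ι) ∈ J then b2 (e ⟨j, h⟩) else 0) : V n)) =
          (fun k : (Finset.univ : Finset B) => a2 k - b2 k) ∘
            (fun j : J => (⟨e j, Finset.mem_univ _⟩ : (Finset.univ : Finset B))) := by
        funext j
        simp only [dif_pos j.2, Function.comp_apply]
      rw [e2]
      refine hli2.comp _ ?_
      intro i j hij
      exact he (congrArg Subtype.val hij)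
  · have : q + s • x - q = s • x := by abel
    rw [this, dotProduct_smul, hlx]
    simpa using hs

theorem main : Pool.Agent.H53.ST.TaskMove :=
  fun h1 h2 => aux h1 h2

end Pool.Agent.ST53.TaskMove
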